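import Pool.Agent.H71.FS.Meas
import Pool.Agent.H26.BV.Ult

/-!
# SC: the reflection property which comes from the sigma-centeredness of small iterations
-/

set_option autoImplicit false

open Cardinal BV

namespace FS

/-- a family of elements of `B` with the finite intersection property is contained in an
ultrafilter: Zorn or `DistribLattice.prime_ideal_of_disjoint_filter_ideal`, compare `UF.exists_mem` -/
theorem exists_uf {B : Type} [CompleteBooleanAlgebra B] (F : Set B)
    (hF : ∀ G : Finset B, (∀ b ∈ G, b ∈ F) → (⨅ b ∈ G, b) ≠ ⊥) : ∃ U : UF B, ∀ b ∈ F, b ∈ U := by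
  classical
  let S : Set B := {x | ∃ G : Finset B, (∀ b ∈ G, b ∈ F) ∧ (⨅ b ∈ G, b) ≤ x}
  have hS : Order.IsPFilter S := by
    apply Order.IsPFilter.of_def
    · exact ⟨⊤, ∅, by simp, le_top⟩
    · rintro x ⟨G, hG, hx⟩ y ⟨G', hG', hy⟩
      refine ⟨⨅ b ∈ G ∪ G', b, ⟨G ∪ G', ?_, le_rfl⟩, ?_, ?_⟩
      · intro b hb
        rcases Finset.mem_union.1 hb with h | h
        · exact hG b h
        · exact hG' b h
      · refine le_trans ?_ hx
        exact le_iInf₂ fun b hb => iInf₂_le b (Finset.mem_union_left G' hb)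
      · refine le_trans ?_ hy
        exact le_iInf₂ fun b hb => iInf₂_le b (Finset.mem_union_right G hb)
    · rintro x y hxy ⟨G, hG, hx⟩
      exact ⟨G, hG, hx.trans hxy⟩
  have hd : Disjoint ((hS.toPFilter : Order.PFilter B) : Set B)
      ((Order.Ideal.principal (⊥ : B) : Order.Ideal B) : Set B) := by
    rw [Set.disjoint_left]
    intro x hx hx'
    obtain ⟨G, hG, h1⟩ : x ∈ S := hx
    have h2 : x ≤ ⊥ := hx'
    exact hF G hG (le_bot_iff.mp (h1.trans h2))
  obtain ⟨J, hJp, -, hJF⟩ := DistribLattice.prime_ideal_of_disjoint_filter_ideal hd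
  have hSJ : ∀ x ∈ S, x ∉ J := fun x hx h => Set.disjoint_left.mp hJF (show x ∈ hS.toPFilter from hx) h
  have htop : (⊤ : B) ∉ J := hSJ ⊤ ⟨∅, by simp, le_top⟩
  refine ⟨⟨{x | x ∉ J}, htop, ?_, ?_, ?_, ?_⟩, ?_⟩
  · intro x y hx hxy hy
    exact hx (J.lower hxy hy)
  · intro x y hx hy hxy
    rcases hJp.mem_or_mem hxy with h | h
    · exact hx h
    · exact hy h
  · intro h
    exact h J.bot_mem
  · intro x
    by_contra hc
    rw [not_or] at hc
    have h1 : x ∈ J := by
      by_contra h
      exact hc.1 h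
    have h2 : xᶜ ∈ J := by
      by_contra h
      exact hc.2 h
    have h3 : x ⊔ xᶜ ∈ J := J.sup_mem h1 h2
    rw [sup_compl_eq_top] at h3
    exact htop h3
  · intro b hb
    refine hSJ b ⟨{b}, ?_, ?_⟩
    · intro x hx
      rw [Finset.mem_singleton] at hx
      rw [hx]
      exact hb
    · exact iInf₂_le b (Finset.mem_singleton_self b)

/-- for countably many elements `b n` of `B` there are countably many valuations `w j : ℕ → Bool`
such that below every `c ≠ ⊥` one of the valuations cannot be excluded by finitely many `n` -/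
def SC (B : Type) [CompleteBooleanAlgebra B] : Prop :=
  ∀ b : ℕ → B, ∃ w : ℕ → ℕ → Bool, ∀ c : B, c ≠ ⊥ → ∃ j, ∀ F : Finset ℕ,
    c ⊓ (⨅ n ∈ F, if w j n then b n else (b n)ᶜ) ≠ ⊥

namespace Iter

variable {K T R J : Type} [LinearOrder K] [WellFoundedLT K] [Inhabited T] (I : Iter K T R J)
  {B : Type} [CompleteBooleanAlgebra B] {e : I.P → B}

/-- Let `S` be as in `exists_meas` and `h` as in `exists_classes S`. For `j : ℕ` the elements
`e p`, `supp p ⊆ S`, `p.stem k = h j k` for `k ∈ supp p`, have the finite intersection property by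
`exists_common`; let `U j` be an ultrafilter containing them and `w j n = true` iff `b n ∈ U j`.
Let `c ≠ ⊥`, `e t ≤ c` and `j` such that `t.stem k = h j k` on `supp t ∩ S`. Let `v` be the finite
infimum; `v ∈ U j` and `v` is measurable. If `e t ⊓ v = ⊥` then `e t ≤ vᶜ`, so
`e (rs S t) ≤ vᶜ`, and `e (rs S t) ∈ U j`, so `vᶜ ∈ U j`, a contradiction. -/
theorem sc [Countable T] (he : DenseEmb I.P B e) (hR : #R ≤ 𝔠) [Countable J]
    (hN : ∀ k r j, (I.N k r j).Countable) : SC B := by
  classical
  intro b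
  obtain ⟨S, hS1, hS2, hS3⟩ := I.exists_meas he hR hN b
  obtain ⟨h, hh⟩ := exists_classes (K := K) (T := T) (R := R) S hS1
  let Fj : ℕ → Set B := fun j => {x | ∃ p : Cond K T R, p.supp ⊆ S ∧
    (∀ k ∈ p.supp, p.stem k = h j k) ∧ e p = x}
  have hU : ∀ j, ∃ U : UF B, ∀ x ∈ Fj j, x ∈ U := by
    intro j
    apply exists_uf
    intro G hG
    have hch : ∀ x : B, ∃ p : Cond K T R, x ∈ G → p.supp ⊆ S ∧
        (∀ k ∈ p.supp, p.stem k = h j k) ∧ e p = x := by
      intro x
      by_cases hx : x ∈ G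
      · obtain ⟨p, hp⟩ := hG x hx
        exact ⟨p, fun _ => hp⟩
      · exact ⟨Cond.one, fun h => absurd h hx⟩
    choose P hP using hch
    obtain ⟨q, -, -, hq⟩ := I.exists_common (h j) (G.image P) (by
      intro p hp k hk
      rw [Finset.mem_image] at hp
      obtain ⟨x, hx, rfl⟩ := hp
      exact (hP x hx).2.1 k hk)
    have h1 : e q ≤ ⨅ x ∈ G, x := by
      refine le_iInf₂ fun x hx => ?_
      have h2 : e q ≤ e (P x) :=
        he.mono _ _ ((I.le_def (q : I.P) (P x : I.P)).2 (hq (P x) (Finset.mem_image_of_mem P hx)))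
      rw [(hP x hx).2.2] at h2
      exact h2
    intro h0
    rw [h0] at h1
    exact he.ne_bot _ (le_bot_iff.1 h1)
  choose U hU using hU
  refine ⟨fun j n => decide (b n ∈ U j), ?_⟩
  intro c hc
  obtain ⟨t, ht⟩ := he.dense c hc
  obtain ⟨j, hj⟩ := hh (t : Cond K T R)
  refine ⟨j, ?_⟩
  intro F hbot
  set v : B := ⨅ n ∈ F, if (decide (b n ∈ U j)) = true then b n else (b n)ᶜ with hv
  have hvU : v ∈ U j := by
    rw [hv]
    have key : ∀ G : Finset ℕ,
        (⨅ n ∈ G, if (decide (b n ∈ U j)) = true then b n else (b n)ᶜ) ∈ U j := by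
      intro G
      induction G using Finset.induction_on with
      | empty =>
        simp only [Finset.notMem_empty, iInf_false, iInf_top]
        exact (U j).top_mem
      | insert a G ha ih =>
        rw [Finset.iInf_insert, UF.inf_mem_iff]
        refine ⟨?_, ih⟩
        by_cases h1 : b a ∈ U j
        · rw [if_pos (decide_eq_true h1)]
          exact h1
        · rw [if_neg (by rw [decide_eq_true_iff]; exact h1)]
          exact (U j).compl_mem_iff.2 h1
    exact key F
  have hvM : I.Meas e S v := by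
    rw [hv]
    refine I.meas_iInf he hS2 fun n => I.meas_iInf he hS2 fun _ => ?_
    by_cases h1 : b n ∈ U j
    · rw [if_pos (decide_eq_true h1)]
      exact hS3 n
    · rw [if_neg (by rw [decide_eq_true_iff]; exact h1)]
      exact I.meas_compl he hS2 (hS3 n)
  have h2 : e t ≤ vᶜ := by
    rw [le_compl_iff_disjoint_right, disjoint_iff, ← le_bot_iff, ← hbot]
    exact inf_le_inf_right _ ht
  have h3 : e (I.rs S t) ≤ vᶜ := hvM t h2
  have h4 : e (I.rs S t) ∈ U j := by
    apply hU j
    refine ⟨I.rs S t, Cond.GLUE_supp_res_subset S t, ?_, rfl⟩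
    have hres : ∀ (t0 : Cond K T R) (S0 : Set K), (∀ k ∈ Cond.supp t0 ∩ S0, t0.stem k = h j k) →
        ∀ k ∈ Cond.supp (Cond.res S0 t0), (Cond.res S0 t0).stem k = h j k := by
      intro t0 S0 h0 k hk
      rw [Cond.supp_res] at hk
      exact (Cond.res_of_mem t0 hk.2).1.trans (h0 k hk)
    exact hres t S hj
  have h7 : vᶜ ∈ U j := (U j).mem_of_le h4 h3
  exact (U j).compl_mem_iff.1 h7 hvU

end Iter

end FS
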