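import Pool.Agent.H71.FS.Defs

/-!
# BOOK: bookkeeping
-/

set_option autoImplicit false

open Cardinal

namespace FS

theorem book_big : 𝔠 ≤ (2 : Cardinal.{0}) ^ 𝔠 := (cantor 𝔠).le

theorem book_aleph : ℵ₀ ≤ (2 : Cardinal.{0}) ^ 𝔠 := aleph0_le_continuum.trans book_big

theorem book_pow : ((2 : Cardinal.{0}) ^ 𝔠) ^ 𝔠 = 2 ^ 𝔠 := by
  rw [← power_mul, continuum_mul_self]

/-- a countable set as the range of a sequence of optional elements -/
theorem book_seq {X : Type} {s : Set X} (hs : s.Countable) :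
    ∃ g : ℕ → Option X, ∀ x, x ∈ s ↔ ∃ n, g n = some x := by
  rcases s.eq_empty_or_nonempty with rfl | hne
  · exact ⟨fun _ => none, fun x => by simp⟩
  · obtain ⟨f, rfl⟩ := hs.exists_eq_range hne
    refine ⟨fun n => some (f n), fun x => ?_⟩
    simp

/-- Let `X` be a set with at most `λ` elements, where `λ ^ 𝔠 = λ`, then there are at most `λ` maps
from `R × J` to the countable subsets of `X` -/
theorem card_families (X R J : Type) [Countable J] (hR : #R ≤ 𝔠) (hX : #X ≤ 2 ^ 𝔠) :
    #{φ : R → J → Set X // ∀ r j, (φ r j).Countable} ≤ 2 ^ 𝔠 := by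
  choose g hg using fun (φ : {φ : R → J → Set X // ∀ r j, (φ r j).Countable}) (r : R) (j : J) =>
    book_seq (φ.2 r j)
  have hinj : Function.Injective (fun φ : {φ : R → J → Set X // ∀ r j, (φ r j).Countable} =>
      fun p : R × J × ℕ => g φ p.1 p.2.1 p.2.2) := by
    intro φ ψ h
    apply Subtype.ext
    funext r j
    ext x
    rw [hg φ r j x, hg ψ r j x]
    have h1 : ∀ n, g φ r j n = g ψ r j n := fun n => congrFun h (r, j, n)
    simp only [h1]
  refine (mk_le_of_injective hinj).trans ?_
  have h1 : #(R × J × ℕ) ≤ 𝔠 := by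
    have hJ : #J ≤ 𝔠 := (mk_le_aleph0_iff.2 inferInstance).trans aleph0_le_continuum
    rw [mk_prod, mk_prod, lift_id, lift_id, lift_id, lift_id, mk_nat]
    calc #R * (#J * ℵ₀) ≤ 𝔠 * (𝔠 * 𝔠) := mul_le_mul' hR (mul_le_mul' hJ aleph0_le_continuum)
      _ = 𝔠 := by rw [continuum_mul_self, continuum_mul_self]
  have h2 : #(Option X) ≤ 2 ^ 𝔠 := by
    rw [mk_option]
    exact (add_le_add hX (one_le_aleph0.trans book_aleph)).trans (add_eq_self book_aleph).le
  calc #(R × J × ℕ → Option X) = #(Option X) ^ #(R × J × ℕ) := by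
        rw [mk_pi]; simp
    _ ≤ (2 ^ 𝔠) ^ #(R × J × ℕ) := power_le_power_right h2
    _ ≤ (2 ^ 𝔠) ^ 𝔠 := power_le_power_left (by
        intro h
        have := book_aleph
        rw [h] at this
        exact absurd this (not_le.2 aleph0_pos)) h1
    _ = 2 ^ 𝔠 := book_pow

/-- the number of conditions with support in a set of coordinates with at most `2 ^ 𝔠` elements -/
theorem card_cond (K T R : Type) [Inhabited T] [Countable T] (hR : #R ≤ 𝔠) (A : Set K)
    (hA : #A ≤ 2 ^ 𝔠) : #{p : Cond K T R // p.supp ⊆ A} ≤ 2 ^ 𝔠 := by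
  classical
  -- the graph of a condition
  have hfin : ∀ p : {p : Cond K T R // p.supp ⊆ A}, {a : A | a.1 ∈ p.1.supp}.Finite := by
    intro p
    exact p.1.fin.preimage Subtype.val_injective.injOn
  let F : {p : Cond K T R // p.supp ⊆ A} → List (A × T × Finset R) := fun p =>
    (hfin p).toFinset.toList.map fun a => (a, p.1.stem a.1, p.1.side a.1)
  have hF : ∀ (p : {p : Cond K T R // p.supp ⊆ A}) (a : A) (t : T) (s : Finset R),
      (a, t, s) ∈ F p ↔ a.1 ∈ p.1.supp ∧ t = p.1.stem a.1 ∧ s = p.1.side a.1 := by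
    intro p a t s
    simp only [F, List.mem_map, Finset.mem_toList, Set.Finite.mem_toFinset, Prod.mk.injEq]
    constructor
    · rintro ⟨b, hb, rfl, rfl, rfl⟩
      exact ⟨hb, rfl, rfl⟩
    · rintro ⟨hb, rfl, rfl⟩
      exact ⟨a, hb, rfl, rfl, rfl⟩
  have hinj : Function.Injective F := by
    intro p q h
    have hsub : ∀ p q : {p : Cond K T R // p.supp ⊆ A}, F p = F q → ∀ k ∈ p.1.supp,
        k ∈ q.1.supp ∧ p.1.stem k = q.1.stem k ∧ p.1.side k = q.1.side k := by
      intro p q h k hk
      have h1 : ((⟨k, p.2 hk⟩ : A), p.1.stem k, p.1.side k) ∈ F p := (hF p _ _ _).2 ⟨hk, rfl, rfl⟩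
      rw [h] at h1
      exact (hF q _ _ _).1 h1
    apply Subtype.ext
    have hns : ∀ (p : Cond K T R) k, k ∉ p.supp → p.stem k = default ∧ p.side k = ∅ := by
      intro p k hk
      simp only [Cond.supp, Set.mem_ofPred_eq, not_or, not_not] at hk
      exact hk
    have hkk : ∀ k, p.1.stem k = q.1.stem k ∧ p.1.side k = q.1.side k := by
      intro k
      by_cases hk : k ∈ p.1.supp
      · exact (hsub p q h k hk).2
      · by_cases hk' : k ∈ q.1.supp
        · exact absurd (hsub q p h.symm k hk').1 hk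
        · have h1 := hns p.1 k hk
          have h2 := hns q.1 k hk'
          exact ⟨h1.1.trans h2.1.symm, h1.2.trans h2.2.symm⟩
    apply Cond.ext
    · funext k
      exact (hkk k).1
    · funext k
      exact (hkk k).2
  refine (mk_le_of_injective hinj).trans ((mk_list_le_max _).trans (max_le book_aleph ?_))
  have hT : #T ≤ 2 ^ 𝔠 := (mk_le_aleph0_iff.2 inferInstance).trans book_aleph
  have hFR : #(Finset R) ≤ 2 ^ 𝔠 := by
    have h1 : Function.Injective (fun s : Finset R => s.toList) := by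
      intro s t h
      have := congrArg List.toFinset h
      simpa using this
    exact (mk_le_of_injective h1).trans ((mk_list_le_max _).trans
      (max_le book_aleph (hR.trans book_big)))
  rw [mk_prod, mk_prod, lift_id, lift_id, lift_id, lift_id]
  calc #A * (#T * #(Finset R)) ≤ 2 ^ 𝔠 * (2 ^ 𝔠 * 2 ^ 𝔠) :=
        mul_le_mul' hA (mul_le_mul' hT hFR)
    _ = 2 ^ 𝔠 := by rw [mul_eq_self book_aleph, mul_eq_self book_aleph]

theorem book_iUnion {α ι : Type} (f : ι → Set α) {c : Cardinal.{0}} (hc : ℵ₀ ≤ c)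
    (hι : #ι ≤ c) (h : ∀ i, #(f i) ≤ c) : #(⋃ i, f i) ≤ c := by
  refine (mk_iUnion_le f).trans ?_
  calc #ι * ⨆ i, #(f i) ≤ c * c := mul_le_mul' hι (ciSup_le' h)
    _ = c := mul_eq_self hc

/-- subsets with at most `𝔠` elements of `(2 ^ 𝔠)⁺` are bounded -/
theorem book_bdd (S : Set (Order.succ ((2 : Cardinal.{0}) ^ 𝔠)).ord.ToType) (hS : #S ≤ 𝔠) :
    ∃ b, S ⊆ Set.Iio b := by
  by_contra hcon
  push Not at hcon
  have h1 : (Set.univ : Set (Order.succ ((2 : Cardinal.{0}) ^ 𝔠)).ord.ToType) ⊆
      ⋃ s : S, Set.Iic s.1 := by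
    intro b _
    obtain ⟨s, hs, hb⟩ := Set.not_subset.1 (hcon b)
    exact Set.mem_iUnion.2 ⟨⟨s, hs⟩, Set.mem_Iic.2 (not_lt.1 hb)⟩
  have h2 : #(⋃ s : S, Set.Iic s.1) ≤ (2 : Cardinal.{0}) ^ 𝔠 := by
    refine book_iUnion _ book_aleph (hS.trans book_big) fun s => ?_
    have h3 : #(Set.Iio s.1) ≤ (2 : Cardinal.{0}) ^ 𝔠 := by
      have h4 := mk_Iio_lt s.1 (by simp)
      rw [mk_ord_toType] at h4
      exact Order.lt_succ_iff.1 h4
    have h5 : Set.Iic s.1 = insert s.1 (Set.Iio s.1) := (Set.Iio_insert).symm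
    rw [h5]
    exact (mk_insert_le).trans ((add_le_add h3 (one_le_aleph0.trans book_aleph)).trans
      (add_eq_self book_aleph).le)
  have h3 := (mk_le_mk_of_subset h1).trans h2
  rw [mk_univ, mk_ord_toType] at h3
  exact absurd h3 (not_le.2 (Order.lt_succ _))

/-- Bookkeeping. Let `K` be (the order type) `(2 ^ 𝔠)⁺`. There is a function `N` such that `N k r j` is a
countable set of conditions with supports below `k`, and such that all families of countable sets of
conditions occur as `N k`.

Proof: `K = (succ (2 ^ 𝔠)).ord.ToType`; every initial segment has at most `2 ^ 𝔠` elements, and every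
subset with at most `𝔠` elements is bounded (regularity of successor cardinals). For `b : K` let
`Fam b` be the set of all families `φ : R → J → Set (Cond K T R)` with all `φ r j` countable and
consisting of conditions with supports below `b`; by `card_cond` and `card_families` there is a
surjection `s b` from `L` (a type with `2 ^ 𝔠` elements) onto `Fam b`. Let
`π : K → K × K × L` be a bijection, `π k = (x, b, l)`; put `N k = s b l` if `b ≤ k`, and `N k r j = ∅`
otherwise. Given `φ`, the union of the supports of all conditions in all `φ r j` has at most `𝔠`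
elements, so it is bounded by some `b`; let `s b l = φ`. The set of the `k` with `π k = (x, b, l)` for
some `x` has as many elements as `K`, so it is not contained in an initial segment; take such a
`k ≥ b`. -/
theorem exists_book (T R J : Type) [Inhabited T] [Countable T] [Countable J] (hR : #R ≤ 𝔠) :
    ∃ (K : Type) (_ : LinearOrder K) (_ : WellFoundedLT K) (N : K → R → J → Set (Cond K T R)),
      (∀ k r j, (N k r j).Countable) ∧ (∀ k r j, ∀ c ∈ N k r j, c.supp ⊆ Set.Iio k) ∧
      ∀ φ : R → J → Set (Cond K T R), (∀ r j, (φ r j).Countable) → ∃ k, N k = φ := by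
  classical
  set K : Type := (Order.succ ((2 : Cardinal.{0}) ^ 𝔠)).ord.ToType with hK
  have hKc : #K = Order.succ ((2 : Cardinal.{0}) ^ 𝔠) := mk_ord_toType _
  set L : Type := ((2 : Cardinal.{0}) ^ 𝔠).out with hL
  have hLc : #L = (2 : Cardinal.{0}) ^ 𝔠 := mk_out _
  have hIio : ∀ k : K, #(Set.Iio k) ≤ (2 : Cardinal.{0}) ^ 𝔠 := by
    intro k
    have h4 := mk_Iio_lt k (by rw [hKc]; exact (Ordinal.type_toType _).symm)
    rw [hKc] at h4
    exact Order.lt_succ_iff.1 h4
  -- families of conditions below `b`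
  let Fam : K → Type := fun b => {φ : R → J → Set (Cond K T R) //
    ∀ r j, (φ r j).Countable ∧ ∀ c ∈ φ r j, c.supp ⊆ Set.Iio b}
  have hFam : ∀ b, #(Fam b) ≤ #L := by
    intro b
    rw [hLc]
    have h1 := card_families {p : Cond K T R // p.supp ⊆ Set.Iio b} R J hR
      (card_cond K T R hR (Set.Iio b) (hIio b))
    refine le_trans (mk_le_of_injective (f := fun φ : Fam b =>
      (⟨fun r j => Subtype.val ⁻¹' (φ.1 r j), fun r j =>
        (φ.2 r j).1.preimage Subtype.val_injective⟩ :
        {φ : R → J → Set {p : Cond K T R // p.supp ⊆ Set.Iio b} //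
          ∀ r j, (φ r j).Countable})) ?_) h1
    intro φ ψ h
    apply Subtype.ext
    funext r j
    have h2 := congrFun (congrFun (congrArg Subtype.val h) r) j
    ext c
    constructor
    · intro hc
      have h3 : (⟨c, (φ.2 r j).2 c hc⟩ : {p : Cond K T R // p.supp ⊆ Set.Iio b}) ∈
          (Subtype.val ⁻¹' (φ.1 r j) : Set {p : Cond K T R // p.supp ⊆ Set.Iio b}) := hc
      have h4 : (⟨c, (φ.2 r j).2 c hc⟩ : {p : Cond K T R // p.supp ⊆ Set.Iio b}) ∈
          (Subtype.val ⁻¹' (ψ.1 r j) : Set {p : Cond K T R // p.supp ⊆ Set.Iio b}) := by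
        have h5 : (Subtype.val ⁻¹' (φ.1 r j) : Set {p : Cond K T R // p.supp ⊆ Set.Iio b}) =
          Subtype.val ⁻¹' (ψ.1 r j) := h2
        rw [← h5]
        exact h3
      exact h4
    · intro hc
      have h3 : (⟨c, (ψ.2 r j).2 c hc⟩ : {p : Cond K T R // p.supp ⊆ Set.Iio b}) ∈
          (Subtype.val ⁻¹' (φ.1 r j) : Set {p : Cond K T R // p.supp ⊆ Set.Iio b}) := by
        have h5 : (Subtype.val ⁻¹' (φ.1 r j) : Set {p : Cond K T R // p.supp ⊆ Set.Iio b}) =
          Subtype.val ⁻¹' (ψ.1 r j) := h2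
        rw [h5]
        exact hc
      exact h3
  have hne : ∀ b, Nonempty (Fam b) := fun b =>
    ⟨⟨fun _ _ => ∅, fun _ _ => ⟨Set.countable_empty, fun c hc => absurd hc (by simp)⟩⟩⟩
  have hsurj : ∀ b, ∃ s : L → Fam b, Function.Surjective s := by
    intro b
    obtain ⟨e⟩ := (le_def _ _).1 (hFam b)
    have := hne b
    exact ⟨Function.invFun e, Function.invFun_surjective e.injective⟩
  choose s hs using hsurj
  -- the pairing
  have hcard : #K = #(K × K × L) := by
    have h1 : ℵ₀ ≤ Order.succ ((2 : Cardinal.{0}) ^ 𝔠) := book_aleph.trans (Order.le_succ _)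
    simp only [mk_prod, lift_id]
    rw [hKc, hLc, mul_eq_left h1 (Order.le_succ _) (by
        intro h
        have := book_aleph
        rw [h] at this
        exact absurd this (not_le.2 aleph0_pos)), mul_eq_self h1]
  obtain ⟨π⟩ := Cardinal.eq.1 hcard
  refine ⟨K, inferInstance, inferInstance,
    fun k => if (π k).2.1 ≤ k then (s (π k).2.1 (π k).2.2).1 else fun _ _ => ∅, ?_, ?_, ?_⟩
  · intro k r j
    dsimp only
    split_ifs with h
    · exact ((s (π k).2.1 (π k).2.2).2 r j).1
    · exact Set.countable_empty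
  · intro k r j c hc
    dsimp only at hc
    split_ifs at hc with h
    · exact (((s (π k).2.1 (π k).2.2).2 r j).2 c hc).trans (Set.Iio_subset_Iio h)
    · exact absurd hc (by simp)
  · intro φ hφ
    obtain ⟨b, hb⟩ := book_bdd (⋃ r, ⋃ j, ⋃ c : φ r j, c.1.supp) (by
      refine book_iUnion _ aleph0_le_continuum hR fun r => ?_
      refine book_iUnion _ aleph0_le_continuum
        ((mk_le_aleph0_iff.2 inferInstance).trans aleph0_le_continuum) fun j => ?_
      have := (hφ r j).to_subtype
      refine book_iUnion _ aleph0_le_continuum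
        ((mk_le_aleph0_iff.2 inferInstance).trans aleph0_le_continuum) fun c => ?_
      exact (mk_le_aleph0_iff.2 c.1.fin.countable.to_subtype).trans aleph0_le_continuum)
    have hmem : ∀ r j, ∀ c ∈ φ r j, c.supp ⊆ Set.Iio b := by
      intro r j c hc x hx
      exact hb (Set.mem_iUnion.2 ⟨r, Set.mem_iUnion.2 ⟨j, Set.mem_iUnion.2 ⟨⟨c, hc⟩, hx⟩⟩⟩)
    obtain ⟨l, hl⟩ := hs b ⟨φ, fun r j => ⟨hφ r j, hmem r j⟩⟩
    obtain ⟨x, hx⟩ : ∃ x : K, b ≤ π.symm (x, b, l) := by
      by_contra hcon
      push Not at hcon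
      have h1 : #K ≤ #(Set.Iio b) := by
        refine mk_le_of_injective (f := fun x : K => (⟨π.symm (x, b, l), hcon x⟩ : Set.Iio b)) ?_
        intro x y h
        have h2 := congrArg Subtype.val h
        have h3 := π.symm.injective h2
        exact congrArg Prod.fst h3
      rw [hKc] at h1
      exact absurd (h1.trans (hIio b)) (not_le.2 (Order.lt_succ _))
    refine ⟨π.symm (x, b, l), ?_⟩
    dsimp only
    rw [Equiv.apply_symm_apply, if_pos hx, hl]

end FS
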