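import Pool.Agent.H71.FS.Frc

/-!
# PSEUDO: the coordinates of the iteration add pseudointersections
-/

set_option autoImplicit false

open Cardinal BV

namespace FS

namespace Iter

variable {K R : Type} [LinearOrder K] [WellFoundedLT K]

/-- the iteration of the forcings for pseudointersections (stems: finite sets of natural numbers,
promises: members of the family, requirements: new numbers of the stem belong to the promised
members of the family) -/
def mathias (N : K → R → ℕ → Set (Cond K (Finset ℕ) R))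
    (hN : ∀ k r j, ∀ c ∈ N k r j, c.supp ⊆ Set.Iio k) : Iter K (Finset ℕ) R ℕ where
  sle s t := s ⊆ t
  req s t := {n | n ∈ t ∧ n ∉ s}
  N := N
  sle_refl s := Finset.Subset.refl s
  sle_trans s t u h1 h2 := h1.trans h2
  default_sle s := Finset.empty_subset s
  req_self s := by
    ext n
    simp
  req_trans s t u h1 h2 := by
    intro n hn
    by_cases h : n ∈ t
    · exact Or.inl ⟨h, hn.2⟩
    · exact Or.inr ⟨hn.1, h⟩
  supp_N := hN

variable (N : K → R → ℕ → Set (Cond K (Finset ℕ) R))
  (hN : ∀ k r j, ∀ c ∈ N k r j, c.supp ⊆ Set.Iio k)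
  {B : Type} [CompleteBooleanAlgebra B] {e : (mathias N hN).P → B}

/-- the generic set at the coordinate `a` -/
noncomputable def gset (e : (mathias N hN).P → B) (a : K) (n : ℕ) : B :=
  ⨆ p : {p : (mathias N hN).P // n ∈ p.stem a}, e p.1

/-- the name of a truth value as a supremum over a set -/
theorem pseudo_iSup (f : R → ℕ → B) (a : K)
    (ha : ∀ x n, f x n = ⨆ c : {c : (mathias N hN).P // c ∈ N a x n}, e c.1) (x : R) (n : ℕ) :
    (⨆ c ∈ (N a x n : Set (mathias N hN).P), e c) = f x n := by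
  rw [ha x n, iSup_subtype]
  rfl

theorem pseudo_at_congr {T J : Type} [Inhabited T] (I : Iter K T R J) {b : K}
    {q q' p : Cond K T R} (h : ∀ b', b' ≤ b → q.stem b' = q'.stem b' ∧ q.side b' = q'.side b')
    (hq : I.At b q p) : I.At b q' p := by
  obtain ⟨h1, h2, h3⟩ := hq
  obtain ⟨e1, e2⟩ := h b le_rfl
  refine ⟨by rw [← e1]; exact h1, by rw [← e2]; exact h2, fun r hr j hj => ?_⟩
  rw [← e1] at hj
  exact (I.forces_congr (fun b' hb' => h b' hb'.le) _).1 (h3 r hr j hj)

theorem pseudo_at_same {T J : Type} [Inhabited T] (I : Iter K T R J) {b : K}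
    {q p : Cond K T R} (h1 : q.stem b = p.stem b) (h2 : p.side b ⊆ q.side b) : I.At b q p := by
  refine ⟨by rw [h1]; exact I.sle_refl _, h2, fun r _ j hj => ?_⟩
  rw [h1, I.req_self] at hj
  exact absurd hj (Set.notMem_empty j)

theorem pseudo_upd_self {T : Type} [Inhabited T] (p : Cond K T R) (a : K) (s : T)
    (H : Finset R) : (Cond.upd p a s H).stem a = s ∧ (Cond.upd p a s H).side a = H := by
  simp [Cond.upd]

theorem pseudo_upd_ne {T : Type} [Inhabited T] (p : Cond K T R) {a b : K} (h : b ≠ a) (s : T)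
    (H : Finset R) : (Cond.upd p a s H).stem b = p.stem b ∧
      (Cond.upd p a s H).side b = p.side b := by
  simp [Cond.upd, h]

/-- Let `x` be the name of a member of the family. It is enough to find below every condition a
condition `p` and `m` with `e p ≤ ⨅ n > m, (gset n ⇨ f x n)` (`DenseEmb.iSup_eq_top`). Add `x` to the
side part of the condition at `a` (`Cond.upd`; this is an extension, as the stems are the same,
`req_self`), and let `m` be an upper bound of the stem `p.stem a`. Let `n > m` and `n ∈ p'.stem a`; the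
common extensions `q` of `p` and `p'` have `n ∈ q.stem a`, so `q ≤ p` implies that
`Forces a q (N a x n)`, and then `e q ≤ f x n` by `forces_iff`. So `e p ⊓ e p' ≤ f x n`. -/
theorem gset_almost (he : DenseEmb (mathias N hN).P B e) (f : R → ℕ → B) (a : K)
    (ha : ∀ x n, f x n = ⨆ c : {c : (mathias N hN).P // c ∈ N a x n}, e c.1) (x : R) :
    (⨆ m, ⨅ n, ⨅ (_ : m < n), (gset N hN e a n ⇨ f x n)) = ⊤ := by
  classical
  refine he.iSup_eq_top fun p => ?_
  obtain ⟨q, hq⟩ : ∃ q : (mathias N hN).P,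
      q = Cond.upd (p : Cond K (Finset ℕ) R) a (p.stem a) (insert x (p.side a)) := ⟨_, rfl⟩
  have hqa := pseudo_upd_self (p : Cond K (Finset ℕ) R) a (p.stem a) (insert x (p.side a))
  rw [← hq] at hqa
  have hqp : q ≤ p := by
    intro b
    by_cases hb : b = a
    · subst hb
      refine pseudo_at_same _ hqa.1 ?_
      rw [hqa.2]
      exact Finset.subset_insert _ _
    · have hqb := pseudo_upd_ne (p : Cond K (Finset ℕ) R) hb (p.stem a) (insert x (p.side a))
      rw [← hq] at hqb
      exact pseudo_at_same _ hqb.1 (by rw [hqb.2])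
  refine ⟨q, hqp, (p.stem a).sup id, ?_⟩
  refine le_iInf fun n => le_iInf fun hn => ?_
  rw [le_himp_iff]
  unfold gset
  rw [inf_iSup_eq]
  refine iSup_le fun p' => ?_
  by_contra hcon
  have h1 : e q ⊓ e p'.1 ⊓ (f x n)ᶜ ≠ ⊥ := by
    intro h0
    exact hcon (disjoint_compl_right_iff.1 (disjoint_iff.2 h0))
  obtain ⟨r, hr⟩ := he.dense _ h1
  have h2 : e r ⊓ e q ≠ ⊥ := by
    rw [inf_eq_left.2 ((hr.trans inf_le_left).trans inf_le_left)]
    exact he.ne_bot r
  obtain ⟨r1, hr1, hr1q⟩ := he.compat r q h2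
  have h3 : e r1 ⊓ e p'.1 ≠ ⊥ := by
    rw [inf_eq_left.2 ((he.mono _ _ hr1).trans ((hr.trans inf_le_left).trans inf_le_right))]
    exact he.ne_bot r1
  obtain ⟨r2, hr2, hr2p⟩ := he.compat r1 p'.1 h3
  have hnstem : n ∈ r2.stem a := (hr2p a).1 p'.2
  have hnq : n ∉ q.stem a := by
    rw [hqa.1]
    intro h
    exact absurd (Finset.le_sup (f := id) h) (not_le.2 hn)
  have hforce : (mathias N hN).Forces a r2 (N a x n) :=
    ((hr2.trans hr1q) a).2.2 x (by rw [hqa.2]; exact Finset.mem_insert_self _ _) n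
      ⟨hnstem, hnq⟩
  have h4 : e r2 ≤ f x n := (((mathias N hN).forces_iff he a r2 (N a x n) (hN a x n)).1
    hforce).trans (le_of_eq (pseudo_iSup N hN f a ha x n))
  apply he.ne_bot r2
  rw [← le_bot_iff, ← inf_compl_eq_bot (a := f x n)]
  exact le_inf h4 ((he.mono _ _ (hr2.trans hr1)).trans (hr.trans inf_le_right))

/-- Let `b` be the left side, and suppose that `e p ≤ b` and `e p ≤ (⨆ n > m, gset n)ᶜ` (it is enough
to find a contradiction). Let `H = p.side a`. Since `e p ≤ ⨆ n > m, ⨅ x ∈ H, f x n` there are `q ≤ p`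
and `n > m` with `e q ≤ f x n`, that is `Forces a q (N a x n)`, for all `x ∈ H`. Let `r` be the
condition which agrees with `q` below `a`, with `p` above `a`, and `r.stem a = p.stem a ∪ {n}`,
`r.side a = H` (`exists_below` and `Cond.upd`, `forces_congr`). Then `r ≤ p` and `e r ≤ gset n`. -/
theorem gset_infinite (he : DenseEmb (mathias N hN).P B e) (f : R → ℕ → B) (a : K)
    (ha : ∀ x n, f x n = ⨆ c : {c : (mathias N hN).P // c ∈ N a x n}, e c.1) :
    (⨅ H : Finset R, ⨅ m : ℕ, ⨆ n, ⨆ (_ : m < n), ⨅ x ∈ H, f x n) ≤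
      ⨅ m, ⨆ n, ⨆ (_ : m < n), gset N hN e a n := by
  classical
  refine le_iInf fun m => ?_
  by_contra hcon
  have h1 : (⨅ H : Finset R, ⨅ m : ℕ, ⨆ n, ⨆ (_ : m < n), ⨅ x ∈ H, f x n) ⊓
      (⨆ n, ⨆ (_ : m < n), gset N hN e a n)ᶜ ≠ ⊥ := by
    intro h0
    exact hcon (disjoint_compl_right_iff.1 (disjoint_iff.2 h0))
  obtain ⟨p, hp⟩ := he.dense _ h1
  have h2 : e p ≤ ⨆ n, ⨆ (_ : m < n), ⨅ x ∈ (p.side a : Finset R), f x n :=
    (hp.trans inf_le_left).trans ((iInf_le _ (p.side a)).trans (iInf_le _ m))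
  obtain ⟨q1, hq1, n, hn⟩ := he.exists_le_of_le_iSup h2
  obtain ⟨q, hq, hmn, hqn⟩ := he.exists_le_of_le_iSup hn
  have hqp : q ≤ p := hq.trans hq1
  have hforce : ∀ x ∈ (p.side a : Finset R), (mathias N hN).Forces a q (N a x n) := by
    intro x hx
    refine ((mathias N hN).forces_iff he a q (N a x n) (hN a x n)).2 ?_
    exact (hqn.trans ((iInf_le _ x).trans (iInf_le _ hx))).trans
      (le_of_eq (pseudo_iSup N hN f a ha x n).symm)
  obtain ⟨v, hvp, hv1, hv2⟩ := (mathias N hN).exists_below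
    ((mathias N hN).le_of_le hqp a)
  obtain ⟨r, hr⟩ : ∃ r : (mathias N hN).P,
      r = Cond.upd (v : Cond K (Finset ℕ) R) a (insert n (p.stem a)) (p.side a) := ⟨_, rfl⟩
  have hra := pseudo_upd_self (v : Cond K (Finset ℕ) R) a (insert n (p.stem a)) (p.side a)
  rw [← hr] at hra
  have hrb : ∀ b, b ≠ a → r.stem b = v.stem b ∧ r.side b = v.side b := by
    intro b hb
    have := pseudo_upd_ne (v : Cond K (Finset ℕ) R) hb (insert n (p.stem a)) (p.side a)
    rw [← hr] at this
    exact this
  have hrp : r ≤ p := by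
    intro b
    rcases lt_trichotomy b a with hb | hb | hb
    · refine pseudo_at_congr _ (q := v) (fun b' hb' => ?_) (hvp b)
      have h3 := hrb b' (ne_of_lt (lt_of_le_of_lt hb' hb))
      exact ⟨h3.1.symm, h3.2.symm⟩
    · subst hb
      refine ⟨?_, by rw [hra.2], fun x hx j hj => ?_⟩
      · show p.stem b ⊆ r.stem b
        rw [hra.1]
        exact Finset.subset_insert _ _
      · have hj1 : j ∈ r.stem b := hj.1
        have hj2 : j ∉ p.stem b := hj.2
        rw [hra.1, Finset.mem_insert] at hj1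
        rcases hj1 with rfl | hj1
        · refine ((mathias N hN).forces_congr (fun b' hb' => ?_) _).1 (hforce x hx)
          have h3 := hrb b' (ne_of_lt hb')
          have h4 := hv1 b' hb'
          exact ⟨h4.1.symm.trans h3.1.symm, h4.2.symm.trans h3.2.symm⟩
        · exact absurd hj1 hj2
    · have h3 := hrb b (ne_of_gt hb)
      have h4 := hv2 b hb.le
      refine pseudo_at_same _ (h3.1.trans h4.1) ?_
      rw [h3.2, h4.2]
  have h3 : e r ≤ ⨆ n, ⨆ (_ : m < n), gset N hN e a n := by
    refine _root_.le_trans ?_ (le_iSup₂ (f := fun n (_ : m < n) => gset N hN e a n) n hmn)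
    unfold gset
    exact le_iSup (fun p : {p : (mathias N hN).P // n ∈ p.stem a} => e p.1)
      ⟨r, by rw [hra.1]; exact Finset.mem_insert_self _ _⟩
  apply he.ne_bot r
  rw [← le_bot_iff, ← inf_compl_eq_bot (a := ⨆ n, ⨆ (_ : m < n), gset N hN e a n)]
  exact le_inf h3 ((he.mono _ _ hrp).trans (hp.trans inf_le_right))

end Iter

end FS
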