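import Pool.Agent.H71.FS.Sc
import Pool.Agent.H71.FS.Book
import Pool.Agent.H71.FS.Pseudo

/-!
# ALG: the complete Boolean algebra of the finite support iteration
-/

set_option autoImplicit false

open Cardinal BV

namespace FS

/-- Boolean-valued families indexed by `R` with the strong finite intersection property have
pseudointersections -/
def PS (R B : Type) [CompleteBooleanAlgebra B] : Prop :=
  ∀ f : R → ℕ → B, ∃ A : ℕ → B,
    (⨅ H : Finset R, ⨅ m : ℕ, ⨆ n, ⨆ (_ : m < n), ⨅ x ∈ H, f x n) ≤ (⨅ m, ⨆ n, ⨆ (_ : m < n), A n) ∧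
    ∀ x, (⨆ m, ⨅ n, ⨅ (_ : m < n), (A n ⇨ f x n)) = ⊤

/-- by `exists_book`, `exists_denseEmb`, `Iter.sc`, `Iter.exists_countable`, `Iter.gset_almost`,
`Iter.gset_infinite` -/
theorem exists_alg (R : Type) (hR : #R ≤ 𝔠) :
    ∃ (B : Type) (_ : CompleteBooleanAlgebra B), Nontrivial B ∧ SC B ∧ PS R B := by
  obtain ⟨K, iK, iW, N, hN, hN', hbook⟩ := exists_book (Finset ℕ) R ℕ hR
  obtain ⟨B, iB, e, he⟩ := exists_denseEmb (Iter.mathias N hN').P
  refine ⟨B, iB, ⟨⟨e (Cond.one : Cond K (Finset ℕ) R), ⊥, he.ne_bot _⟩⟩,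
    Iter.sc (Iter.mathias N hN') he hR hN, ?_⟩
  intro f
  choose D hD hD' using fun (x : R) (n : ℕ) =>
    Iter.exists_countable (Iter.mathias N hN') he (f x n)
  obtain ⟨a, ha⟩ := hbook D hD
  have ha' : ∀ x n, f x n = ⨆ c : {c : (Iter.mathias N hN').P // c ∈ N a x n}, e c.1 := by
    intro x n
    rw [hD' x n, ha, iSup_subtype]
    rfl
  exact ⟨Iter.gset N hN' e a, Iter.gset_infinite N hN' he f a ha',
    Iter.gset_almost N hN' he f a ha'⟩

end FS
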