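import Mathlib

/-!
# HMP: countably many functions extend all finite functions on a set of size continuum
-/

set_option autoImplicit false

open Cardinal

namespace FS

/-- (Hewitt-Marczewski-Pondiczery) Let `S` have at most continuum many elements and let `T` be
countable. There are countably many functions `h n : S → T` such that every finite function
from `S` to `T` is extended by one of them.

Proof: let `i : S → (ℕ → Bool)` be injective. For `n : ℕ` and a function
`g : (Fin n → Bool) → T` let `h (n, g) s = g (fun k => i s k)`. There are only countably many pairs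
`(n, g)`. Given `F` and `f : S → T`, choose `n` so large that the restrictions of the `i s`, `s ∈ F`,
to `n` are pairwise different; then there is `g` with `g (i s | n) = f s` for `s ∈ F`. -/
theorem exists_hmp (S T : Type) (hS : #S ≤ 𝔠) [Countable T] [Nonempty T] :
    ∃ h : ℕ → S → T, ∀ (F : Finset S) (f : S → T), ∃ n, ∀ s ∈ F, h n s = f s := by
  classical
  have h0 : #S ≤ #(ℕ → Bool) := by
    refine hS.trans (le_of_eq ?_)
    simp
  obtain ⟨i⟩ := Cardinal.le_def _ _ |>.1 h0
  obtain ⟨t₀⟩ := ‹Nonempty T›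
  have : Nonempty (Σ n : ℕ, ((Fin n → Bool) → T)) := ⟨⟨0, fun _ => t₀⟩⟩
  obtain ⟨φ, hφ⟩ := exists_surjective_nat (Σ n : ℕ, ((Fin n → Bool) → T))
  refine ⟨fun m s => (φ m).2 (fun k => i s k), ?_⟩
  intro F f
  have h1 : ∀ s s' : S, ∃ k, s ≠ s' → i s k ≠ i s' k := by
    intro s s'
    by_cases h : s = s'
    · exact ⟨0, fun h' => absurd h h'⟩
    · have h2 : i s ≠ i s' := fun h' => h (i.injective h')
      obtain ⟨k, hk⟩ := Function.ne_iff.1 h2
      exact ⟨k, fun _ => hk⟩
  choose κ hκ using h1
  let n := (F ×ˢ F).sup fun p => κ p.1 p.2 + 1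
  have hn : ∀ s ∈ F, ∀ s' ∈ F, (fun k : Fin n => i s k) = (fun k : Fin n => i s' k) → s = s' := by
    intro s hs s' hs' h
    by_contra hne
    have h2 : κ s s' + 1 ≤ n :=
      Finset.le_sup (f := fun p : S × S => κ p.1 p.2 + 1) (Finset.mk_mem_product hs hs')
    exact hκ s s' hne (congrFun h ⟨κ s s', h2⟩)
  let g : (Fin n → Bool) → T := fun x =>
    if h : ∃ s ∈ F, (fun k : Fin n => i s k) = x then f h.choose else t₀
  obtain ⟨m, hm⟩ := hφ ⟨n, g⟩
  refine ⟨m, fun s hs => ?_⟩
  show (φ m).2 (fun k => i s k) = f s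
  rw [hm]
  have h3 : ∃ s' ∈ F, (fun k : Fin n => i s' k) = (fun k : Fin n => i s k) := ⟨s, hs, rfl⟩
  show g (fun k => i s k) = f s
  simp only [g]
  rw [dif_pos h3]
  rw [hn _ h3.choose_spec.1 s hs h3.choose_spec.2]

end FS
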