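import Pool.Agent.H71.FS.Ord
import Pool.Agent.H71.FS.Hmp

/-!
# CUP: finitely many conditions whose stems agree have a common extension; countable chain condition
-/

set_option autoImplicit false

open Cardinal

namespace FS

namespace Iter

variable {K T R J : Type} [LinearOrder K] [WellFoundedLT K] [Inhabited T] (I : Iter K T R J)

/-- Conditions whose stems agree on their supports with the same function `h` have a common
extension `q`: for two conditions take `q.side k = p.side k ∪ p'.side k` and `q.stem k = h k` if `k`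
is in the support of `p` or of `p'` (`default` otherwise). At a coordinate in the support of `p` the
stems of `p` and `q` are equal, so there are no requirements (`req_self`), and at the other
coordinates `p` has an empty side part. Then use induction on the finite set. -/
theorem exists_common (h : K → T) (F : Finset (Cond K T R))
    (hF : ∀ p ∈ F, ∀ k ∈ p.supp, p.stem k = h k) :
    ∃ q : Cond K T R, (∀ k ∈ q.supp, q.stem k = h k) ∧ (∀ k ∈ q.supp, ∃ p ∈ F, k ∈ p.supp) ∧
      ∀ p ∈ F, ∀ a, I.At a q p := by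
  classical
  let U : Set K := {k | ∃ p ∈ F, k ∈ p.supp}
  have hU : U.Finite := by
    have h1 : U = ⋃ p ∈ F, p.supp := by
      ext k
      simp [U]
    rw [h1]
    exact Set.Finite.biUnion F.finite_toSet fun p _ => p.fin
  have hside : ∀ k, k ∉ U → F.biUnion (fun p => p.side k) = ∅ := by
    intro k hk
    rw [Finset.eq_empty_iff_forall_notMem]
    intro r hr
    rw [Finset.mem_biUnion] at hr
    obtain ⟨p, hp, hrp⟩ := hr
    exact hk ⟨p, hp, Or.inr (Finset.ne_empty_of_mem hrp)⟩
  have hsupp : ∀ k, ((if k ∈ U then h k else default) ≠ default ∨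
      F.biUnion (fun p => p.side k) ≠ ∅) → k ∈ U := by
    intro k hk
    by_contra h1
    rcases hk with h2 | h2
    · rw [if_neg h1] at h2
      exact h2 rfl
    · exact h2 (hside k h1)
  let q : Cond K T R := ⟨fun k => if k ∈ U then h k else default,
    fun k => F.biUnion (fun p => p.side k), hU.subset hsupp⟩
  have hq : ∀ k ∈ U, q.stem k = h k := fun k hk => if_pos hk
  refine ⟨q, fun k hk => hq k (hsupp k hk), fun k hk => hsupp k hk, ?_⟩
  intro p hp a
  have hstem : a ∈ p.supp → p.stem a = q.stem a := by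
    intro ha
    rw [hF p hp a ha, hq a ⟨p, hp, ha⟩]
  refine ⟨?_, Finset.subset_biUnion_of_mem (fun p : Cond K T R => p.side a) hp, ?_⟩
  · by_cases ha : a ∈ p.supp
    · rw [hstem ha]
      exact I.sle_refl _
    · have h1 : p.stem a = default := by
        by_contra h2
        exact ha (Or.inl h2)
      rw [h1]
      exact I.default_sle _
  · intro r hr j hj
    have ha : a ∈ p.supp := Or.inr (Finset.ne_empty_of_mem hr)
    rw [hstem ha, I.req_self] at hj
    exact absurd hj (Set.notMem_empty j)

/-- the same on the set `S` of coordinates: countably many classes `h n`, such that every condition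
belongs to one of them: apply `exists_hmp` to the type `S` -/
theorem exists_classes [Countable T] (S : Set K) (hS : #S ≤ 𝔠) :
    ∃ h : ℕ → K → T, ∀ t : Cond K T R, ∃ n, ∀ k ∈ t.supp ∩ S, t.stem k = h n k := by
  classical
  obtain ⟨g, hg⟩ := exists_hmp S T hS
  refine ⟨fun n k => if hk : k ∈ S then g n ⟨k, hk⟩ else default, ?_⟩
  intro t
  have hfin : {s : S | (s : K) ∈ t.supp}.Finite :=
    t.fin.preimage Subtype.val_injective.injOn
  obtain ⟨n, hn⟩ := hg hfin.toFinset (fun s => t.stem s)
  refine ⟨n, ?_⟩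
  rintro k ⟨hk, hkS⟩
  show t.stem k = if hk : k ∈ S then g n ⟨k, hk⟩ else default
  rw [dif_pos hkS, hn ⟨k, hkS⟩ (by rw [Set.Finite.mem_toFinset]; exact hk)]

/-- countable chain condition: among uncountably many conditions two are compatible. Restrict to
`ℵ₁` many of them; the union `S` of their supports has at most `ℵ₁ ≤ 𝔠` elements; by
`exists_classes` two different conditions belong to the same class `h n`; use `exists_common` -/
theorem ccc [Countable T] (A : Set I.P) (hA : ¬ A.Countable) :
    ∃ p ∈ A, ∃ q ∈ A, p ≠ q ∧ ∃ r : I.P, r ≤ p ∧ r ≤ q := by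
  classical
  have h1 : ℵ₁ ≤ #A := by
    rw [aleph_one_le_iff, ← not_le, mk_le_aleph0_iff]
    exact hA
  obtain ⟨A', hA'A, hA'⟩ := le_mk_iff_exists_subset.1 h1
  let f : A' → Set K := fun p => Cond.supp (T := T) (R := R) p.1
  let S : Set K := ⋃ p : A', f p
  have hS : #S ≤ 𝔠 := by
    have h2 : (⨆ p : A', #(f p)) ≤ ℵ₀ := by
      refine ciSup_le' fun p => ?_
      have : (f p).Finite := Cond.fin (T := T) (R := R) p.1
      exact (lt_aleph0_iff_set_finite.2 this).le
    calc #S ≤ #A' * ⨆ p : A', #(f p) := mk_iUnion_le f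
      _ ≤ ℵ₁ * ℵ₀ := by
          rw [hA']
          gcongr
      _ ≤ 𝔠 * 𝔠 := by
          gcongr
          · exact aleph_one_le_continuum
          · exact aleph0_le_continuum
      _ = 𝔠 := by simp
  obtain ⟨h, hh⟩ := exists_classes (K := K) (T := T) (R := R) S hS
  choose n hn using hh
  have hninj : ¬ Function.Injective (fun p : A' => n p.1) := by
    intro hinj
    have h3 : #A' ≤ ℵ₀ := by
      rw [mk_le_aleph0_iff]
      exact hinj.countable
    rw [hA'] at h3
    exact absurd h3 (not_le.2 aleph0_lt_aleph_one)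
  rw [Function.Injective] at hninj
  push Not at hninj
  obtain ⟨p, q, hpq, hne⟩ := hninj
  have hpS : ∀ k ∈ Cond.supp (T := T) (R := R) p.1, k ∈ S := fun k hk =>
    Set.mem_iUnion.2 ⟨p, hk⟩
  have hqS : ∀ k ∈ Cond.supp (T := T) (R := R) q.1, k ∈ S := fun k hk =>
    Set.mem_iUnion.2 ⟨q, hk⟩
  obtain ⟨p0, hp0⟩ : ∃ p0 : Cond K T R, p0 = p.1 := ⟨p.1, rfl⟩
  obtain ⟨q0, hq0⟩ : ∃ q0 : Cond K T R, q0 = q.1 := ⟨q.1, rfl⟩
  obtain ⟨r, -, -, hr⟩ := I.exists_common (h (n p.1)) ({p0, q0} : Finset (Cond K T R)) (by
    intro t ht k hk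
    rw [Finset.mem_insert, Finset.mem_singleton] at ht
    rcases ht with rfl | rfl
    · rw [hp0] at hk ⊢
      exact hn p.1 k ⟨hk, hpS k hk⟩
    · rw [hq0] at hk ⊢
      have h4 : n p.1 = n q.1 := hpq
      rw [h4]
      exact hn q.1 k ⟨hk, hqS k hk⟩)
  have hrp := hr p0 (by simp)
  have hrq := hr q0 (by simp)
  rw [hp0] at hrp
  rw [hq0] at hrq
  exact ⟨p.1, hA'A p.2, q.1, hA'A q.2, fun h5 => hne (Subtype.ext h5), r, hrp, hrq⟩

end Iter

end FS
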