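import Mathlib

/-!
# Finite support iterations of forcings finite stem + finite set of promises: definitions

`K` is a well-ordered index set (the length of the iteration), `T` the set of stems, `R` the set of
names of promises (side conditions), `J` an index set for the requirements. A condition `p` is a
finitely supported function, `p k = (stem, side)` with `stem : T`, `side : Finset R`.

`N k r j` is a set of conditions with supports below `k`: it is a name for a truth value in the
model of stage `k`; when at the coordinate `k` the stem is extended from `s` to `s'`, and `r` is in
the side part of the old condition, then for all `j ∈ req s s'` the truth value `N k r j` must be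
forced by the part of the new condition below `k`.
-/

set_option autoImplicit false

namespace FS

/-- finitely supported conditions: a stem and a finite set of side indices at each coordinate -/
@[ext] structure Cond (K T R : Type) [Inhabited T] where
  stem : K → T
  side : K → Finset R
  fin : {k | stem k ≠ default ∨ side k ≠ ∅}.Finite

namespace Cond

variable {K T R : Type} [Inhabited T]

/-- support of a condition -/
def supp (p : Cond K T R) : Set K := {k | p.stem k ≠ default ∨ p.side k ≠ ∅}

/-- trivial condition -/
def one : Cond K T R := ⟨fun _ => default, fun _ => ∅, by simp⟩

open Classical in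
/-- the condition which is `u` on `S` and `t` outside `S` -/
noncomputable def glue (S : Set K) (u t : Cond K T R) : Cond K T R :=
  ⟨fun k => if k ∈ S then u.stem k else t.stem k, fun k => if k ∈ S then u.side k else t.side k, by
    refine (u.fin.union t.fin).subset ?_
    intro k hk
    by_cases h : k ∈ S
    · left
      simpa [h] using hk
    · right
      simpa [h] using hk⟩

/-- restriction to `S` -/
noncomputable def res (S : Set K) (t : Cond K T R) : Cond K T R := glue S t one

open Classical in
/-- the condition `p` with the coordinate `a` replaced by `(s, H)` -/
noncomputable def upd (p : Cond K T R) (a : K) (s : T) (H : Finset R) : Cond K T R :=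
  ⟨fun k => if k = a then s else p.stem k, fun k => if k = a then H else p.side k, by
    refine (p.fin.union (Set.finite_singleton a)).subset ?_
    intro k hk
    by_cases h : k = a
    · right
      exact h
    · left
      simpa [h] using hk⟩

end Cond

/-- the data of an iteration -/
structure Iter (K T R J : Type) [LinearOrder K] [Inhabited T] where
  /-- the order of the stems: `sle s s'` means that `s'` extends `s` -/
  sle : T → T → Prop
  /-- the requirements for extending a stem -/
  req : T → T → Set J
  /-- the names of the truth values of the requirements -/
  N : K → R → J → Set (Cond K T R)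
  sle_refl : ∀ s, sle s s
  sle_trans : ∀ s t u, sle s t → sle t u → sle s u
  default_sle : ∀ s, sle default s
  req_self : ∀ s, req s s = ∅
  req_trans : ∀ s t u, sle s t → sle t u → req s u ⊆ req s t ∪ req t u
  supp_N : ∀ k r j, ∀ c ∈ N k r j, c.supp ⊆ Set.Iio k

namespace Iter

variable {K T R J : Type} [LinearOrder K] [WellFoundedLT K] [Inhabited T]

/-- `Le a q p`: the part of `q` below `a` is a stronger condition than the part of `p` below `a`
(well-founded recursion) -/
noncomputable def Le (I : Iter K T R J) : K → Cond K T R → Cond K T R → Prop :=
  WellFounded.fix (C := fun _ => Cond K T R → Cond K T R → Prop) wellFounded_lt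
    fun a ih q p => ∀ (b : K) (h : b < a), I.sle (p.stem b) (q.stem b) ∧ p.side b ⊆ q.side b ∧
      ∀ r ∈ p.side b, ∀ j ∈ I.req (p.stem b) (q.stem b), ∀ t, ih b h t q →
        ∃ u, ih b h u t ∧ ∃ c ∈ I.N b r j, ih b h u c

/-- the part of `q` below `b` forces that the generic filter meets the set `D` of conditions -/
def Forces (I : Iter K T R J) (b : K) (q : Cond K T R) (D : Set (Cond K T R)) : Prop :=
  ∀ t, I.Le b t q → ∃ u, I.Le b u t ∧ ∃ c ∈ D, I.Le b u c

/-- the coordinate `b` of `q` is stronger than the coordinate `b` of `p` -/
def At (I : Iter K T R J) (b : K) (q p : Cond K T R) : Prop :=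
  I.sle (p.stem b) (q.stem b) ∧ p.side b ⊆ q.side b ∧
    ∀ r ∈ p.side b, ∀ j ∈ I.req (p.stem b) (q.stem b), I.Forces b q (I.N b r j)

theorem le_iff (I : Iter K T R J) (a : K) (q p : Cond K T R) :
    I.Le a q p ↔ ∀ b, b < a → I.At b q p := by
  unfold Le
  rw [WellFounded.fix_eq]
  rfl

/-- the forcing poset of the iteration (all conditions) -/
def P (_I : Iter K T R J) : Type := Cond K T R

/-- the set `S` of coordinates is closed under the supports of the names used at its elements -/
def Closed (I : Iter K T R J) (S : Set K) : Prop :=
  ∀ k ∈ S, ∀ r j, ∀ c ∈ I.N k r j, c.supp ⊆ S

end Iter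

end FS
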