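import Pool.Agent.H71.FS.Ord

/-!
# GLUE: restrictions and amalgamation

`Cond.glue S u t` is `u` on `S` and `t` outside `S`; `Cond.res S t` is the restriction of `t` to `S`.
-/

set_option autoImplicit false

namespace FS

namespace Cond

variable {K T R : Type} [Inhabited T]

theorem glue_of_mem {S : Set K} (u t : Cond K T R) {k : K} (h : k ∈ S) :
    (glue S u t).stem k = u.stem k ∧ (glue S u t).side k = u.side k := by
  simp [glue, h]

theorem glue_of_notMem {S : Set K} (u t : Cond K T R) {k : K} (h : k ∉ S) :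
    (glue S u t).stem k = t.stem k ∧ (glue S u t).side k = t.side k := by
  simp [glue, h]

theorem res_of_mem {S : Set K} (t : Cond K T R) {k : K} (h : k ∈ S) :
    (res S t).stem k = t.stem k ∧ (res S t).side k = t.side k :=
  glue_of_mem t one h

theorem res_of_notMem {S : Set K} (t : Cond K T R) {k : K} (h : k ∉ S) :
    (res S t).stem k = default ∧ (res S t).side k = ∅ :=
  glue_of_notMem t one h

theorem of_notMem_supp {p : Cond K T R} {k : K} (h : k ∉ p.supp) :
    p.stem k = default ∧ p.side k = ∅ := by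
  simp only [supp, Set.mem_ofPred_eq, not_or, not_not] at h
  exact h

theorem supp_res (S : Set K) (t : Cond K T R) : (res S t).supp = t.supp ∩ S := by
  ext k
  by_cases h : k ∈ S
  · obtain ⟨h1, h2⟩ := res_of_mem t h
    simp only [supp, Set.mem_ofPred_eq, Set.mem_inter_iff, h1, h2, h, and_true]
  · obtain ⟨h1, h2⟩ := res_of_notMem t h
    simp only [supp, Set.mem_ofPred_eq, Set.mem_inter_iff, h1, h2, h, and_false]
    simp

theorem supp_glue_subset (S : Set K) (u t : Cond K T R) :
    (glue S u t).supp ⊆ (u.supp ∩ S) ∪ t.supp := by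
  intro k hk
  by_cases h : k ∈ S
  · left
    obtain ⟨h1, h2⟩ := glue_of_mem u t h
    simp only [supp, Set.mem_ofPred_eq, h1, h2] at hk
    exact ⟨hk, h⟩
  · right
    obtain ⟨h1, h2⟩ := glue_of_notMem u t h
    simp only [supp, Set.mem_ofPred_eq, h1, h2] at hk
    exact hk

/-- extensionality in coordinates -/
theorem GLUE_ext {p q : Cond K T R} (h : ∀ k, p.stem k = q.stem k ∧ p.side k = q.side k) :
    p = q := by
  ext k
  · exact (h k).1
  · rw [(h k).2]

theorem res_eq_self {S : Set K} {t : Cond K T R} (h : t.supp ⊆ S) : res S t = t := by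
  refine GLUE_ext fun k => ?_
  by_cases hk : k ∈ S
  · exact res_of_mem t hk
  · obtain ⟨h1, h2⟩ := res_of_notMem t hk
    obtain ⟨h3, h4⟩ := of_notMem_supp (fun hk' => hk (h hk') : k ∉ t.supp)
    exact ⟨h1.trans h3.symm, h2.trans h4.symm⟩

theorem GLUE_supp_res_subset (S : Set K) (t : Cond K T R) : (res S t).supp ⊆ S := by
  rw [supp_res]
  exact Set.inter_subset_right

theorem res_res (S : Set K) (t : Cond K T R) : res S (res S t) = res S t :=
  res_eq_self (GLUE_supp_res_subset S t)

theorem res_glue (S : Set K) (u t : Cond K T R) : res S (glue S u t) = res S u := by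
  refine GLUE_ext fun k => ?_
  by_cases hk : k ∈ S
  · obtain ⟨h1, h2⟩ := res_of_mem (glue S u t) hk
    obtain ⟨h3, h4⟩ := glue_of_mem u t hk
    obtain ⟨h5, h6⟩ := res_of_mem u hk
    exact ⟨by rw [h1, h3, h5], by rw [h2, h4, h6]⟩
  · obtain ⟨h1, h2⟩ := res_of_notMem (glue S u t) hk
    obtain ⟨h5, h6⟩ := res_of_notMem u hk
    exact ⟨by rw [h1, h5], by rw [h2, h6]⟩

end Cond

namespace Iter

variable {K T R J : Type} [LinearOrder K] [WellFoundedLT K] [Inhabited T] (I : Iter K T R J)

/-- equal coordinates -/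
theorem GLUE_at_of_eq {b : K} {q p : Cond K T R} (h : q.stem b = p.stem b ∧ q.side b = p.side b) :
    I.At b q p := by
  obtain ⟨h1, h2⟩ := h
  refine ⟨?_, ?_, ?_⟩
  · rw [h1]
    exact I.sle_refl _
  · rw [h2]
  · intro r _ j hj
    rw [h1, I.req_self] at hj
    exact absurd hj (Set.notMem_empty j)

/-- trivial coordinate -/
theorem GLUE_at_of_trivial {b : K} {q p : Cond K T R} (h : p.stem b = default ∧ p.side b = ∅) :
    I.At b q p := by
  obtain ⟨h1, h2⟩ := h
  refine ⟨?_, ?_, ?_⟩
  · rw [h1]
    exact I.default_sle _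
  · rw [h2]
    exact Finset.empty_subset _
  · intro r hr
    rw [h2] at hr
    exact absurd hr (Finset.notMem_empty r)

theorem GLUE_at_res (S : Set K) (b : K) (t : Cond K T R) : I.At b t (Cond.res S t) := by
  by_cases hb : b ∈ S
  · obtain ⟨h1, h2⟩ := Cond.res_of_mem t hb
    exact I.GLUE_at_of_eq ⟨h1.symm, h2.symm⟩
  · exact I.GLUE_at_of_trivial (Cond.res_of_notMem t hb)

theorem GLUE_at_left (S : Set K) (b : K) (u t : Cond K T R) :
    I.At b (Cond.glue S u t) (Cond.res S u) := by
  by_cases hb : b ∈ S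
  · obtain ⟨h1, h2⟩ := Cond.res_of_mem u hb
    obtain ⟨h3, h4⟩ := Cond.glue_of_mem u t hb
    exact I.GLUE_at_of_eq ⟨h3.trans h1.symm, h4.trans h2.symm⟩
  · exact I.GLUE_at_of_trivial (Cond.res_of_notMem u hb)

/-- coordinatewise: equal on `S`, trivial outside `S` -/
theorem le_res (S : Set K) (a : K) (t : Cond K T R) : I.Le a t (Cond.res S t) :=
  (I.le_iff a _ _).2 fun b _ => I.GLUE_at_res S b t

theorem glue_le_left (S : Set K) (a : K) (u t : Cond K T R) :
    I.Le a (Cond.glue S u t) (Cond.res S u) :=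
  (I.le_iff a _ _).2 fun b _ => I.GLUE_at_left S b u t

theorem GLUE_at_right (S : Set K) {b : K} {u t : Cond K T R} (hS : u.supp ⊆ S)
    (hu : I.At b u (Cond.res S t)) : I.At b (Cond.glue S u t) t := by
  by_cases hb : b ∈ S
  · obtain ⟨h1, h2⟩ := Cond.res_of_mem t hb
    obtain ⟨h3, h4⟩ := Cond.glue_of_mem u t hb
    obtain ⟨e1, e2, e3⟩ := hu
    rw [h1] at e1 e3
    rw [h2] at e2 e3
    refine ⟨by rw [h3]; exact e1, by rw [h4]; exact e2, fun r hr j hj => ?_⟩
    rw [h3] at hj
    have hle : I.Le b (Cond.glue S u t) u := by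
      have := I.glue_le_left S b u t
      rwa [Cond.res_eq_self hS] at this
    exact Forces.mono I (e3 r hr j hj) hle
  · exact I.GLUE_at_of_eq (Cond.glue_of_notMem u t hb)

/-- induction on `a`. For `b < a`, `b ∈ S`: use `hu` at `b`, the forcing statements for `u` pass to
`glue S u t` by `glue_le_left` (`res S u = u`). For `b ∉ S` the coordinates are equal -/
theorem glue_le_right (S : Set K) {a : K} {u t : Cond K T R} (hS : u.supp ⊆ S)
    (hu : I.Le a u (Cond.res S t)) : I.Le a (Cond.glue S u t) t :=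
  (I.le_iff a _ _).2 fun b hb => I.GLUE_at_right S hS ((I.le_iff a _ _).1 hu b hb)

/-- the step of the key lemma -/
theorem GLUE_forces {S : Set K} {b : K}
    (ih : ∀ t p : Cond K T R, I.Le b t p → I.Le b (Cond.res S t) (Cond.res S p))
    {t : Cond K T R} {D : Set (Cond K T R)} (hD : ∀ c ∈ D, c.supp ⊆ S) (h : I.Forces b t D) :
    I.Forces b (Cond.res S t) D := by
  intro w hw
  have h1 : I.Le b (Cond.res S w) (Cond.res S t) := by
    have := ih _ _ hw
    rwa [Cond.res_res] at this
  have h2 : I.Le b (Cond.glue S (Cond.res S w) t) t :=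
    I.glue_le_right S (Cond.GLUE_supp_res_subset S w) h1
  obtain ⟨u, hu, c, hc, huc⟩ := h _ h2
  have h3 : I.Le b (Cond.res S u) c := by
    have := ih _ _ huc
    rwa [Cond.res_eq_self (hD c hc)] at this
  have h4 : I.Le b (Cond.res S u) (Cond.res S w) := by
    have := ih _ _ hu
    rwa [Cond.res_glue, Cond.res_res] at this
  refine ⟨Cond.glue S (Cond.res S u) w,
    I.glue_le_right S (Cond.GLUE_supp_res_subset S u) h4, c, hc, ?_⟩
  have h5 := I.glue_le_left S b (Cond.res S u) w
  rw [Cond.res_res] at h5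
  exact I.le_trans h5 h3

theorem GLUE_at_step {S : Set K} (hS : I.Closed S) {b : K}
    (ih : ∀ t p : Cond K T R, I.Le b t p → I.Le b (Cond.res S t) (Cond.res S p))
    {t p : Cond K T R} (h : I.At b t p) : I.At b (Cond.res S t) (Cond.res S p) := by
  by_cases hb : b ∈ S
  · obtain ⟨h1, h2⟩ := Cond.res_of_mem t hb
    obtain ⟨h3, h4⟩ := Cond.res_of_mem p hb
    obtain ⟨e1, e2, e3⟩ := h
    refine ⟨by rw [h1, h3]; exact e1, by rw [h2, h4]; exact e2, fun r hr j hj => ?_⟩
    rw [h4] at hr
    rw [h1, h3] at hj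
    exact I.GLUE_forces ih (fun c hc => hS b hb r j c hc) (e3 r hr j hj)
  · exact I.GLUE_at_of_trivial (Cond.res_of_notMem p hb)

/-- the key lemma, by induction on `a`: let `b < a`, `b ∈ S` (otherwise trivial), `r ∈ p.side b`,
`j ∈ req ..`; we know `Forces b t D` for `D = N b r j`, whose members `c` have `c.supp ⊆ S`, and must
prove `Forces b (res S t) D`. Let `w ≤_b res S t`. By induction hypothesis `res S w ≤_b res S t`, so
`v = glue S (res S w) t ≤_b t`; there are `u ≤_b v` and `c ∈ D` with `u ≤_b c`. By the induction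
hypothesis `res S u ≤_b res S c = c` and `res S u ≤_b res S v = res S w`. Then
`glue S (res S u) w ≤_b w` and `≤_b res S u ≤_b c`. -/
theorem res_le_res {S : Set K} (hS : I.Closed S) {a : K} {t p : Cond K T R} (h : I.Le a t p) :
    I.Le a (Cond.res S t) (Cond.res S p) := by
  induction a using WellFoundedLT.induction generalizing t p with
  | ind a ih =>
    rw [I.le_iff] at h ⊢
    intro b hb
    exact I.GLUE_at_step hS (fun t p htp => ih b hb htp) (h b hb)

/-- the same statement for the coordinate `a` itself (same proof as in the induction step) -/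
theorem at_res_res {S : Set K} (hS : I.Closed S) {a : K} {t p : Cond K T R} (h : I.Le a t p)
    (h' : I.At a t p) : I.At a (Cond.res S t) (Cond.res S p) :=
  I.GLUE_at_step hS (fun _ _ htp => I.res_le_res hS htp) h'

/-! ## The same facts for the forcing poset -/

/-- restriction, as a map of the forcing poset -/
noncomputable def rs (S : Set K) (t : I.P) : I.P := Cond.res S t

theorem le_rs (S : Set K) (t : I.P) : t ≤ I.rs S t :=
  fun a => I.GLUE_at_res S a t

theorem rs_le_rs {S : Set K} (hS : I.Closed S) {t p : I.P} (h : t ≤ p) :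
    I.rs S t ≤ I.rs S p :=
  fun a => I.at_res_res hS (I.le_of_le h a) (h a)

theorem rs_rs (S : Set K) (t : I.P) : I.rs S (I.rs S t) = I.rs S t :=
  Cond.res_res S t

/-- amalgamation over a closed set `S` (a regular suborder): if `u ≤ res S t` then `t` and `res S u`
are compatible; `v = glue S u t` -/
theorem exists_amalgam {S : Set K} (hS : I.Closed S) {t u : I.P} (h : u ≤ I.rs S t) :
    ∃ v : I.P, v ≤ t ∧ v ≤ I.rs S u := by
  have h' : I.rs S u ≤ I.rs S t := by
    have := I.rs_le_rs hS h
    rwa [I.rs_rs] at this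
  refine ⟨(Cond.glue S (Cond.res S u) t : Cond K T R), fun a => ?_, fun a => ?_⟩
  · exact I.GLUE_at_right S (Cond.GLUE_supp_res_subset S u) (h' a)
  · have e : Cond.res S (Cond.res S (u : Cond K T R)) = Cond.res S (u : Cond K T R) :=
      Cond.res_res S u
    exact Eq.mp (congrArg (I.At a (Cond.glue S (Cond.res S u) t)) e)
      (I.GLUE_at_left S a (Cond.res S u) t)

/-- initial segments are closed, by `supp_N` -/
theorem closed_Iio (a : K) : I.Closed (Set.Iio a) := by
  intro k hk r j c hc
  exact (I.supp_N k r j c hc).trans (Set.Iio_subset_Iio (le_of_lt hk))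

/-- if the part of `u` below `a` is stronger than the part of `t` below `a`, then there is
`v ≤ t` which agrees with `u` below `a` and with `t` from `a` on: `v = glue (Iio a) u t` -/
theorem exists_below {a : K} {t u : I.P} (h : I.Le a u t) :
    ∃ v : I.P, v ≤ t ∧ (∀ b, b < a → v.stem b = u.stem b ∧ v.side b = u.side b) ∧
      ∀ b, a ≤ b → v.stem b = t.stem b ∧ v.side b = t.side b := by
  have hlt : ∀ b, b < a → (Cond.glue (Set.Iio a) u t : Cond K T R).stem b = u.stem b ∧
      (Cond.glue (Set.Iio a) u t : Cond K T R).side b = u.side b :=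
    fun b hb => Cond.glue_of_mem u t hb
  have hge : ∀ b, a ≤ b → (Cond.glue (Set.Iio a) u t : Cond K T R).stem b = t.stem b ∧
      (Cond.glue (Set.Iio a) u t : Cond K T R).side b = t.side b :=
    fun b hb => Cond.glue_of_notMem u t (not_lt.2 hb)
  refine ⟨(Cond.glue (Set.Iio a) u t : Cond K T R), fun b => ?_, hlt, hge⟩
  rcases lt_or_ge b a with hb | hb
  · obtain ⟨h1, h2⟩ := hlt b hb
    obtain ⟨e1, e2, e3⟩ := (I.le_iff a _ _).1 h b hb
    refine ⟨by rw [h1]; exact e1, by rw [h2]; exact e2, fun r hr j hj => ?_⟩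
    rw [h1] at hj
    refine (I.forces_congr (fun c hc => ?_) _).2 (e3 r hr j hj)
    exact hlt c (hc.trans hb)
  · exact I.GLUE_at_of_eq (hge b hb)

end Iter

end FS
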