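import Pool.Agent.H71.FS.Cup
import Pool.Agent.H71.FS.Glue
import Pool.Agent.H26.BV.Rop

/-!
# FRC: forcing and Boolean values; every element of the Boolean completion is the supremum of
countably many conditions
-/

set_option autoImplicit false

open Cardinal BV

namespace FS

namespace Iter

variable {K T R J : Type} [LinearOrder K] [WellFoundedLT K] [Inhabited T] (I : Iter K T R J)
  {B : Type} [CompleteBooleanAlgebra B] {e : I.P → B}

/-- general fact about dense embeddings -/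
theorem le_iSup_iff (he : DenseEmb I.P B e) (q : I.P) (D : Set I.P) :
    e q ≤ ⨆ c ∈ D, e c ↔ ∀ t, t ≤ q → ∃ u, u ≤ t ∧ ∃ c ∈ D, u ≤ c := by
  constructor
  · intro h t ht
    by_contra hcon
    have h1 : e t ⊓ ⨆ c ∈ D, e c = ⊥ := by
      rw [inf_iSup₂_eq, eq_bot_iff]
      refine iSup₂_le fun c hc => ?_
      by_contra h2
      obtain ⟨r, hr1, hr2⟩ := he.compat t c (fun h0 => h2 h0.le)
      exact hcon ⟨r, hr1, c, hc, hr2⟩
    rw [inf_eq_left.2 ((he.mono t q ht).trans h)] at h1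
    exact he.ne_bot t h1
  · intro h
    by_contra hcon
    have h1 : e q ⊓ (⨆ c ∈ D, e c)ᶜ ≠ ⊥ := by
      intro h0
      exact hcon (disjoint_compl_right_iff.mp (disjoint_iff.mpr h0))
    obtain ⟨p, hp⟩ := he.dense _ h1
    have h2 : e p ⊓ e q ≠ ⊥ := by
      rw [inf_eq_left.2 (hp.trans inf_le_left)]
      exact he.ne_bot p
    obtain ⟨r, hr1, hr2⟩ := he.compat p q h2
    obtain ⟨u, hu, c, hc, huc⟩ := h r hr2
    have h3 : e u ≤ ⨆ c ∈ D, e c := (he.mono u c huc).trans (le_iSup₂_of_le c hc le_rfl)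
    have h4 : e u ≤ (⨆ c ∈ D, e c)ᶜ :=
      (he.mono u p (hu.trans hr1)).trans (hp.trans inf_le_right)
    have h5 : e u ≤ ⊥ := by
      rw [← inf_compl_eq_bot (a := ⨆ c ∈ D, e c)]
      exact le_inf h3 h4
    exact he.ne_bot u (le_bot_iff.1 h5)

theorem le_compl_iff (he : DenseEmb I.P B e) (q p : I.P) :
    e q ≤ (e p)ᶜ ↔ ∀ t, t ≤ q → ¬ t ≤ p := by
  constructor
  · intro h t h1 h2
    have h3 : e t ≤ ⊥ := by
      rw [← compl_inf_eq_bot (a := e p)]
      exact le_inf ((he.mono t q h1).trans h) (he.mono t p h2)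
    exact he.ne_bot t (le_bot_iff.1 h3)
  · intro h
    rw [le_compl_iff_disjoint_right, disjoint_iff]
    by_contra hcon
    obtain ⟨r, h1, h2⟩ := he.compat q p hcon
    exact h r h1 h2

theorem eq_iSup (he : DenseEmb I.P B e) (b : B) : b = ⨆ c ∈ {c : I.P | e c ≤ b}, e c := by
  refine le_antisymm ?_ (iSup₂_le fun c hc => hc)
  by_contra hcon
  have h1 : b ⊓ (⨆ c ∈ {c : I.P | e c ≤ b}, e c)ᶜ ≠ ⊥ := by
    intro h0
    exact hcon (disjoint_compl_right_iff.mp (disjoint_iff.mpr h0))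
  obtain ⟨p, hp⟩ := he.dense _ h1
  have h2 : e p ≤ ⨆ c ∈ {c : I.P | e c ≤ b}, e c :=
    le_iSup₂_of_le p (show e p ≤ b from hp.trans inf_le_left) le_rfl
  have h5 : e p ≤ ⊥ := by
    rw [← inf_compl_eq_bot (a := ⨆ c ∈ {c : I.P | e c ≤ b}, e c)]
    exact le_inf h2 (hp.trans inf_le_right)
  exact he.ne_bot p (le_bot_iff.1 h5)

/-- Let all members of `D` have supports below `b`. The truth value of `D` is forced by the part of
`q` below `b` iff it is forced by `q`.

(→) let `t ≤ q`; `Forces` gives `u`, `c ∈ D` with `u ≤_b t`, `u ≤_b c`; by `exists_below` there is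
`v ≤ t` which agrees with `u` below `b`; then `v ≤_b c` (`le_congr`) and so `v ≤ c` because `c` is
trivial from `b` on. (←) let `t ≤_b q`; by `exists_below` there is `v ≤ q` agreeing with `t` below
`b`; there are `u ≤ v`, `c ∈ D` with `u ≤ c`. -/
theorem forces_iff (he : DenseEmb I.P B e) (b : K) (q : I.P) (D : Set I.P)
    (hD : ∀ c ∈ D, Cond.supp (c : Cond K T R) ⊆ Set.Iio b) :
    I.Forces b q D ↔ e q ≤ ⨆ c ∈ D, e c := by
  rw [le_iSup_iff I he]
  constructor
  · intro h t ht
    obtain ⟨u, hu, c, hc, huc⟩ := h t (I.le_of_le ht b)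
    obtain ⟨v, hv1, hv2, hv3⟩ := I.exists_below (t := t) (u := u) hu
    refine ⟨v, hv1, c, hc, ?_⟩
    have h1 : I.Le b v c := (I.le_congr hv2 (fun _ _ => ⟨rfl, rfl⟩)).2 huc
    refine (I.le_def v (c : I.P)).2 fun a => ?_
    by_cases hab : a < b
    · exact (I.le_iff b v c).1 h1 a hab
    · have h2 : a ∉ Cond.supp (c : Cond K T R) := fun h3 => hab (hD c hc h3)
      obtain ⟨h4, h5⟩ := Cond.of_notMem_supp h2
      refine ⟨?_, ?_, ?_⟩
      · rw [h4]
        exact I.default_sle _
      · rw [h5]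
        exact Finset.empty_subset _
      · intro r hr
        rw [h5] at hr
        exact absurd hr (Finset.notMem_empty r)
  · intro h t ht
    obtain ⟨v, hv1, hv2, hv3⟩ := I.exists_below (t := q) (u := t) ht
    obtain ⟨u, hu, c, hc, huc⟩ := h v hv1
    refine ⟨u, ?_, c, hc, I.le_of_le huc b⟩
    exact (I.le_congr (fun _ _ => ⟨rfl, rfl⟩) hv2).1 (I.le_of_le hu b)

/-- every element of `B` is the supremum of countably many conditions: take a maximal antichain of
conditions `c` with `e c ≤ b` (`zorn_subset`), it is countable by `Iter.ccc` -/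
theorem exists_countable [Countable T] (he : DenseEmb I.P B e) (b : B) :
    ∃ D : Set I.P, D.Countable ∧ b = ⨆ c ∈ D, e c := by
  let S : Set (Set I.P) := {A | (∀ c ∈ A, e c ≤ b) ∧
    ∀ p ∈ A, ∀ q ∈ A, p ≠ q → ¬ ∃ r : I.P, r ≤ p ∧ r ≤ q}
  obtain ⟨D, hD⟩ := zorn_subset S (by
    intro C hC hch
    refine ⟨⋃₀ C, ⟨?_, ?_⟩, fun s hs => Set.subset_sUnion_of_mem hs⟩
    · rintro c ⟨A, hA, hc⟩
      exact (hC hA).1 c hc
    · rintro p ⟨A, hA, hp⟩ q ⟨A', hA', hq⟩ hne
      rcases hch.total hA hA' with h | h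
      · exact (hC hA').2 p (h hp) q hq hne
      · exact (hC hA).2 p hp q (h hq) hne)
  refine ⟨D, ?_, ?_⟩
  · by_contra hcon
    obtain ⟨p, hp, q, hq, hne, hr⟩ := I.ccc D hcon
    exact hD.prop.2 p hp q hq hne hr
  · refine le_antisymm ?_ (iSup₂_le fun c hc => hD.prop.1 c hc)
    by_contra hcon
    have h1 : b ⊓ (⨆ c ∈ D, e c)ᶜ ≠ ⊥ := by
      intro h0
      exact hcon (disjoint_compl_right_iff.mp (disjoint_iff.mpr h0))
    obtain ⟨p, hp⟩ := he.dense _ h1
    have key : ∀ c ∈ D, ¬ ∃ r : I.P, r ≤ p ∧ r ≤ c := by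
      rintro c hc ⟨r, h2, h3⟩
      have h4 : e r ≤ ⊥ := by
        rw [← inf_compl_eq_bot (a := ⨆ c ∈ D, e c)]
        exact le_inf ((he.mono r c h3).trans (le_iSup₂_of_le c hc le_rfl))
          ((he.mono r p h2).trans (hp.trans inf_le_right))
      exact he.ne_bot r (le_bot_iff.1 h4)
    have hins : insert p D ∈ S := by
      refine ⟨?_, ?_⟩
      · intro c hc
        rcases Set.mem_insert_iff.1 hc with h2 | hc
        · rw [h2]
          exact hp.trans inf_le_left
        · exact hD.prop.1 c hc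
      · intro c hc c' hc' hne
        rcases Set.mem_insert_iff.1 hc with h2 | hc
        · rcases Set.mem_insert_iff.1 hc' with h3 | hc'
          · exact absurd (h2.trans h3.symm) hne
          · rw [h2]
            exact key c' hc'
        · rcases Set.mem_insert_iff.1 hc' with h3 | hc'
          · rw [h3]
            rintro ⟨r, h4, h5⟩
            exact key c hc ⟨r, h5, h4⟩
          · exact hD.prop.2 c hc c' hc' hne
    have hpD : p ∈ D := by
      have h6 : insert p D ⊆ D := hD.le_of_ge hins (Set.subset_insert p D)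
      exact h6 (Set.mem_insert p D)
    exact key p hpD ⟨p, le_rfl, le_rfl⟩

end Iter

end FS
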