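import Pool.Agent.H71.FS.Frc

/-!
# MEAS: elements of the Boolean completion which are measurable with respect to a closed set of
coordinates
-/

set_option autoImplicit false

open Cardinal BV

namespace FS

namespace Iter

variable {K T R J : Type} [LinearOrder K] [WellFoundedLT K] [Inhabited T] (I : Iter K T R J)
  {B : Type} [CompleteBooleanAlgebra B]

/-- `b` is measurable with respect to the set `S` of coordinates -/
def Meas (e : I.P → B) (S : Set K) (b : B) : Prop := ∀ t : I.P, e t ≤ bᶜ → e (I.rs S t) ≤ bᶜ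

variable {e : I.P → B}

/-- let `e t ≤ (e c)ᶜ`, i.e. `t`, `c` are incompatible. If `w ≤ rs S t` and `w ≤ c` then
`rs S w ≤ rs S (rs S t) = rs S t`, `rs S w ≤ rs S c = c`, and by `exists_amalgam` there is
`v ≤ t`, `v ≤ rs S w ≤ c`, a contradiction -/
theorem meas_e (he : DenseEmb I.P B e) {S : Set K} (hS : I.Closed S) (c : I.P)
    (hc : Cond.supp (c : Cond K T R) ⊆ S) : I.Meas e S (e c) := by
  intro t ht
  by_contra hcon
  have h1 : e (I.rs S t) ⊓ e c ≠ ⊥ := by
    intro h0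
    exact hcon (le_compl_iff_disjoint_right.2 (disjoint_iff.2 h0))
  obtain ⟨w, hw1, hw2⟩ := he.compat _ _ h1
  obtain ⟨v, hv1, hv2⟩ := I.exists_amalgam hS hw1
  have h2 : I.rs S c = c := Cond.res_eq_self hc
  have h3 : v ≤ c := by
    refine hv2.trans ?_
    have := I.rs_le_rs hS hw2
    rwa [h2] at this
  apply he.ne_bot v
  rw [← le_bot_iff]
  calc e v ≤ e c ⊓ (e c)ᶜ := le_inf (he.mono _ _ h3) ((he.mono _ _ hv1).trans ht)
    _ = ⊥ := inf_compl_eq_bot

/-- `(⨆ b i)ᶜ = ⨅ (b i)ᶜ` -/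
theorem meas_iSup {S : Set K} {ι : Sort*} {b : ι → B} (h : ∀ i, I.Meas e S (b i)) :
    I.Meas e S (⨆ i, b i) := by
  intro t ht
  rw [compl_iSup] at ht ⊢
  exact le_iInf fun i => h i t (ht.trans (iInf_le _ i))

/-- let `e t ≤ bᶜᶜ = b` and suppose not `e (rs S t) ≤ b`; there is `w ≤ rs S t` with `e w ≤ bᶜ`
(`exists_le_of_inf_ne_bot`), so `e (rs S w) ≤ bᶜ`; `rs S w ≤ rs S t` and by `exists_amalgam` there
is `v ≤ t`, `v ≤ rs S w`, and `e v ≤ b ⊓ bᶜ = ⊥` -/
theorem meas_compl (he : DenseEmb I.P B e) {S : Set K} (hS : I.Closed S) {b : B}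
    (h : I.Meas e S b) : I.Meas e S bᶜ := by
  intro t ht
  by_contra hcon
  have h1 : e (I.rs S t) ⊓ bᶜ ≠ ⊥ := by
    intro h0
    exact hcon (le_compl_iff_disjoint_right.2 (disjoint_iff.2 h0))
  obtain ⟨w, hw1, hw2⟩ := he.exists_le_of_inf_ne_bot h1
  obtain ⟨v, hv1, hv2⟩ := I.exists_amalgam hS hw1
  apply he.ne_bot v
  rw [← le_bot_iff]
  calc e v ≤ bᶜ ⊓ bᶜᶜ :=
        le_inf ((he.mono _ _ hv2).trans (h w hw2)) ((he.mono _ _ hv1).trans ht)
    _ = ⊥ := inf_compl_eq_bot

theorem meas_inf (he : DenseEmb I.P B e) {S : Set K} (hS : I.Closed S) {a b : B}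
    (ha : I.Meas e S a) (hb : I.Meas e S b) : I.Meas e S (a ⊓ b) := by
  have h1 : a ⊓ b = (⨆ t : Bool, bif t then aᶜ else bᶜ)ᶜ := by
    rw [iSup_bool_eq]
    simp
  rw [h1]
  refine I.meas_compl he hS (I.meas_iSup ?_)
  intro t
  cases t
  · exact I.meas_compl he hS hb
  · exact I.meas_compl he hS ha

theorem meas_iInf (he : DenseEmb I.P B e) {S : Set K} (hS : I.Closed S) {ι : Sort*} {b : ι → B}
    (h : ∀ i, I.Meas e S (b i)) : I.Meas e S (⨅ i, b i) := by
  have h1 : (⨅ i, b i) = (⨆ i, (b i)ᶜ)ᶜ := by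
    rw [compl_iSup]
    simp
  rw [h1]
  exact I.meas_compl he hS (I.meas_iSup fun i => I.meas_compl he hS (h i))

/-- unions of at most continuum many sets of size at most continuum -/
theorem meas_mk_iUnion {α ι : Type} (hι : #ι ≤ 𝔠) (A : ι → Set α) (hA : ∀ i, #(A i) ≤ 𝔠) :
    #(⋃ i, A i : Set α) ≤ 𝔠 := by
  refine (Cardinal.mk_iUnion_le A).trans ?_
  refine (mul_le_mul' hι (ciSup_le' hA)).trans ?_
  exact le_of_eq Cardinal.continuum_mul_self

/-- every set of at most continuum many coordinates is contained in a closed set of at most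
continuum many coordinates: close off countably often -/
theorem exists_closed (hR : #R ≤ 𝔠) [Countable J] (hN : ∀ k r j, (I.N k r j).Countable) (S : Set K)
    (hS : #S ≤ 𝔠) : ∃ S' : Set K, S ⊆ S' ∧ #S' ≤ 𝔠 ∧ I.Closed S' := by
  have hJ : #J ≤ 𝔠 := (Cardinal.mk_le_aleph0).trans Cardinal.aleph0_le_continuum
  have hstep : ∀ A : Set K, #A ≤ 𝔠 → ∃ A' : Set K, A ⊆ A' ∧ #A' ≤ 𝔠 ∧
      ∀ k ∈ A, ∀ r j, ∀ c ∈ I.N k r j, c.supp ⊆ A' := by
    intro A hA
    let F : A × R × J → Set K := fun i => ⋃ c ∈ I.N i.1.1 i.2.1 i.2.2, Cond.supp c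
    have hF : ∀ i, #(F i) ≤ 𝔠 := by
      intro i
      have h1 : (F i).Countable := (hN _ _ _).biUnion fun c _ => c.fin.countable
      exact h1.le_aleph0.trans Cardinal.aleph0_le_continuum
    have hI : #(A × R × J) ≤ 𝔠 := by
      rw [Cardinal.mk_prod, Cardinal.lift_id, Cardinal.lift_id, Cardinal.mk_prod,
        Cardinal.lift_id, Cardinal.lift_id]
      refine (mul_le_mul' hA (mul_le_mul' hR hJ)).trans ?_
      rw [Cardinal.continuum_mul_self, Cardinal.continuum_mul_self]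
    refine ⟨A ∪ ⋃ i, F i, Set.subset_union_left, ?_, ?_⟩
    · refine (Cardinal.mk_union_le _ _).trans ?_
      refine (add_le_add hA (meas_mk_iUnion hI F hF)).trans ?_
      exact le_of_eq Cardinal.continuum_add_self
    · intro k hk r j c hc x hx
      right
      rw [Set.mem_iUnion]
      refine ⟨(⟨k, hk⟩, r, j), ?_⟩
      exact Set.mem_biUnion hc hx
  choose! G hG1 hG2 hG3 using hstep
  let s : ℕ → Set K := fun n => Nat.rec S (fun _ A => G A) n
  have hs0 : s 0 = S := rfl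
  have hs1 : ∀ n, s (n + 1) = G (s n) := fun n => rfl
  have hcard : ∀ n, #(↥(s n)) ≤ 𝔠 := by
    intro n
    induction n with
    | zero => exact hS
    | succ n ih => rw [hs1]; exact hG2 _ ih
  refine ⟨⋃ n, s n, ?_, ?_, ?_⟩
  · exact Set.subset_iUnion s 0
  · exact meas_mk_iUnion (Cardinal.mk_le_aleph0.trans Cardinal.aleph0_le_continuum) s hcard
  · intro k hk r j c hc
    rw [Set.mem_iUnion] at hk
    obtain ⟨n, hn⟩ := hk
    refine (hG3 _ (hcard n) k hn r j c hc).trans ?_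
    rw [← hs1]
    exact Set.subset_iUnion s (n + 1)

/-- countably many elements of `B` are measurable with respect to a closed set of at most continuum
many coordinates: `exists_countable` -/
theorem exists_meas [Countable T] (he : DenseEmb I.P B e) (hR : #R ≤ 𝔠) [Countable J]
    (hN : ∀ k r j, (I.N k r j).Countable) (b : ℕ → B) :
    ∃ S : Set K, #S ≤ 𝔠 ∧ I.Closed S ∧ ∀ n, I.Meas e S (b n) := by
  choose D hD1 hD2 using fun n => I.exists_countable he (b n)
  have h1 : (⋃ n, ⋃ c ∈ D n, Cond.supp (c : Cond K T R)).Countable := by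
    refine Set.countable_iUnion fun n => ?_
    exact (hD1 n).biUnion fun c _ => Cond.fin (c : Cond K T R) |>.countable
  obtain ⟨S, hS1, hS2, hS3⟩ := I.exists_closed hR hN _
    (h1.le_aleph0.trans Cardinal.aleph0_le_continuum)
  refine ⟨S, hS2, hS3, fun n => ?_⟩
  rw [hD2 n]
  refine I.meas_iSup fun c => I.meas_iSup fun hc => ?_
  refine I.meas_e he hS3 c ?_
  refine Set.Subset.trans ?_ hS1
  refine Set.Subset.trans ?_ (Set.subset_iUnion _ n)
  exact Set.subset_biUnion_of_mem (u := fun c : I.P => Cond.supp (c : Cond K T R)) hc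

end Iter

end FS
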