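import Pool.Agent.H71.FS.Defs

/-!
# ORD: the orders `Le a` are preorders and depend only on the coordinates below `a`

Everything is by well-founded induction on `a` (`WellFoundedLT.induction`), using `Iter.le_iff`.
-/

set_option autoImplicit false

namespace FS

namespace Iter

variable {K T R J : Type} [LinearOrder K] [WellFoundedLT K] [Inhabited T] (I : Iter K T R J)

/-- from `le_iff` -/
theorem le_mono {a b : K} (h : b ≤ a) {q p : Cond K T R} (hq : I.Le a q p) : I.Le b q p := by
  rw [le_iff] at hq ⊢
  exact fun c hc => hq c (lt_of_lt_of_le hc h)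

theorem ord_at_refl (a : K) (p : Cond K T R) : I.At a p p := by
  refine ⟨I.sle_refl _, Finset.Subset.refl _, ?_⟩
  intro r _ j hj
  rw [I.req_self] at hj
  exact absurd hj (Set.notMem_empty j)

/-- `req_self` makes the third clause empty -/
theorem le_refl (a : K) (p : Cond K T R) : I.Le a p p := by
  rw [le_iff]
  exact fun b _ => I.ord_at_refl b p

theorem at_refl (a : K) (p : Cond K T R) : I.At a p p := I.ord_at_refl a p

/-- transitivity at a coordinate, assuming transitivity of the order below it -/
theorem ord_at_trans {a : K} {r q p : Cond K T R}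
    (ht : ∀ t, I.Le a t r → I.Le a t q) (h1 : I.At a r q)
    (h2 : I.At a q p) : I.At a r p := by
  refine ⟨I.sle_trans _ _ _ h2.1 h1.1, Finset.Subset.trans h2.2.1 h1.2.1, ?_⟩
  intro x hx j hj
  rcases I.req_trans _ _ _ h2.1 h1.1 hj with h | h
  · intro t htr
    exact h2.2.2 x hx j h t (ht t htr)
  · exact h1.2.2 x (h2.2.1 hx) j h

/-- induction on `a`. For `b < a`: `sle_trans`, `Subset.trans`; for `r ∈ p.side b` and
`j ∈ req (p.stem b) (r'.stem b)` use `req_trans`: either `j ∈ req (p.stem b) (q.stem b)`, and then
`Forces b q D` gives `Forces b r' D` (any `t ≤_b r'` is `≤_b q` by the induction hypothesis), or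
`j ∈ req (q.stem b) (r'.stem b)`, and `r ∈ q.side b` -/
theorem le_trans {a : K} {r q p : Cond K T R} (h1 : I.Le a r q) (h2 : I.Le a q p) :
    I.Le a r p := by
  induction a using WellFoundedLT.induction generalizing r q p with
  | _ a ih =>
    rw [le_iff] at h1 h2 ⊢
    intro b hb
    refine I.ord_at_trans (fun t ht => ?_) (h1 b hb) (h2 b hb)
    exact ih b hb ht ((I.le_iff b r q).2 fun c hc => h1 c (hc.trans hb))

/-- stronger conditions force more -/
theorem Forces.mono {b : K} {q q' : Cond K T R} {D : Set (Cond K T R)} (h : I.Forces b q D)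
    (hq : I.Le b q' q) : I.Forces b q' D :=
  fun t ht => h t (I.le_trans ht hq)

theorem Forces.subset {b : K} {q : Cond K T R} {D D' : Set (Cond K T R)} (h : I.Forces b q D)
    (hD : D ⊆ D') : I.Forces b q D' := by
  intro t ht
  obtain ⟨u, hu, c, hc, huc⟩ := h t ht
  exact ⟨u, hu, c, hD hc, huc⟩

theorem ord_forces_congr_of {b : K} {q q' : Cond K T R} (h : ∀ t, I.Le b t q ↔ I.Le b t q')
    (D : Set (Cond K T R)) : I.Forces b q D ↔ I.Forces b q' D := by
  unfold Forces
  constructor
  · intro h1 t ht
    exact h1 t ((h t).2 ht)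
  · intro h1 t ht
    exact h1 t ((h t).1 ht)

/-- `Le a` depends only on the coordinates below `a`: induction on `a`; for `b < a` the relation
`Forces b q D` depends only on the coordinates of `q` below `b` by the induction hypothesis -/
theorem le_congr {a : K} {q q' p p' : Cond K T R}
    (hq : ∀ b, b < a → q.stem b = q'.stem b ∧ q.side b = q'.side b)
    (hp : ∀ b, b < a → p.stem b = p'.stem b ∧ p.side b = p'.side b) :
    I.Le a q p ↔ I.Le a q' p' := by
  induction a using WellFoundedLT.induction generalizing q q' p p' with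
  | _ a ih =>
    rw [le_iff, le_iff]
    refine forall_congr' fun b => forall_congr' fun hb => ?_
    have hf : ∀ D, I.Forces b q D ↔ I.Forces b q' D := fun D =>
      I.ord_forces_congr_of (fun t => ih b hb (fun _ _ => ⟨rfl, rfl⟩)
        fun c hc => hq c (hc.trans hb)) D
    unfold At
    rw [(hq b hb).1, (hq b hb).2, (hp b hb).1, (hp b hb).2]
    simp only [hf]

theorem forces_congr {a : K} {q q' : Cond K T R}
    (hq : ∀ b, b < a → q.stem b = q'.stem b ∧ q.side b = q'.side b) (D : Set (Cond K T R)) :
    I.Forces a q D ↔ I.Forces a q' D :=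
  I.ord_forces_congr_of (fun _ => I.le_congr (fun _ _ => ⟨rfl, rfl⟩) hq) D

theorem at_trans {a : K} {r q p : Cond K T R} (h : I.Le a r q) (h1 : I.At a r q)
    (h2 : I.At a q p) : I.At a r p :=
  I.ord_at_trans (fun _ ht => I.le_trans ht h) h1 h2

/-- the order of the forcing poset -/
instance instPreorder : Preorder I.P where
  le q p := ∀ a, I.At a q p
  le_refl p a := I.at_refl a p
  le_trans r q p h1 h2 a := I.at_trans ((I.le_iff a r q).2 fun b _ => h1 b) (h1 a) (h2 a)

/-- the definition of the order -/
theorem le_def (q p : I.P) : q ≤ p ↔ ∀ a, I.At a q p := Iff.rfl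

theorem le_of_le {q p : I.P} (h : q ≤ p) (a : K) : I.Le a q p :=
  (I.le_iff a q p).2 fun b _ => h b

end Iter

end FS
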